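import Mathlib

open MeasureTheory

namespace Pool.Agent.K6.H60.TZ

/-- The `n`-th Fourier coefficient of a function on the circle, parametrised by `(0,1]`. -/
noncomputable def coef (f : ℝ → ℂ) (n : ℤ) : ℂ :=
  ∫ x in (0:ℝ)..1, f x * Complex.exp (-(2 * Real.pi * n * x) * Complex.I)

/-- The Toeplitz matrix of size `N+1` with entries `a (j-k)`. -/
def toep (N : ℕ) (a : ℤ → ℂ) : Matrix (Fin (N+1)) (Fin (N+1)) ℂ :=
  Matrix.of fun j k => a ((j : ℤ) - (k : ℤ))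

/-- The operator norm of the Toeplitz matrix on Euclidean space. -/
noncomputable def nrm (N : ℕ) (a : ℤ → ℂ) : ℝ :=
  ‖Matrix.toEuclideanCLM (n := Fin (N+1)) (𝕜 := ℂ) (toep N a)‖

/-- The essential supremum norm on the circle. -/
noncomputable def sup (f : ℝ → ℂ) : ENNReal :=
  eLpNorm f ⊤ (volume.restrict (Set.Ioc (0:ℝ) 1))

/-- `f` is in `L^∞` of the circle and has the coefficients `a n`, `|n| ≤ N`. -/
def Ext (N : ℕ) (a : ℤ → ℂ) (f : ℝ → ℂ) : Prop :=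
  MemLp f ⊤ (volume.restrict (Set.Ioc (0:ℝ) 1)) ∧ ∀ n : ℤ, |n| ≤ N → coef f n = a n

noncomputable def cA (N : ℕ) (a : ℤ → ℂ) : ENNReal :=
  ⨅ (f : ℝ → ℂ) (_ : Ext N a f), sup f

def SelfAdj (N : ℕ) (a : ℤ → ℂ) : Prop := ∀ n : ℤ, |n| ≤ N → a (-n) = star (a n)

noncomputable def c (N : ℕ) : ENNReal :=
  ⨆ (a : ℤ → ℂ) (_ : SelfAdj N a) (_ : toep N a ≠ 0), cA N a / ENNReal.ofReal (nrm N a)

/-- the dilated sequence -/
noncomputable def dil (k : ℕ) (a : ℤ → ℂ) (n : ℤ) : ℂ :=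
  open Classical in if (k : ℤ) ∣ n then a (n / k) else 0

/-- NORM (k copies of A, compressed): -/
def S_NORM : Prop := ∀ (N k M : ℕ) (a : ℤ → ℂ), 1 ≤ k → k * N ≤ M → M + 1 ≤ k * (N + 1) →
  nrm M (dil k a) ≤ nrm N a

/-- TRANS: transfer operator `G x = (1/k) ∑_{j<k} f ((x+j)/k)`. -/
def S_TRANS : Prop := ∀ (N k M : ℕ) (a : ℤ → ℂ) (f : ℝ → ℂ), 1 ≤ k → k * N ≤ M →
  Ext M (dil k a) f → ∃ g : ℝ → ℂ, Ext N a g ∧ sup g ≤ sup f

/-- the symbol used for N = 3 -/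
noncomputable def a3 (n : ℤ) : ℂ :=
  if n = 1 ∨ n = -1 then -1/2 else if n = 3 ∨ n = -3 then 19/24 else 0

/-- NTHREE -/
def S_NTHREE : Prop := nrm 3 a3 ≤ 97/100

/-- LONE: the L1 norm of p = -3/16 cos + 1/4 cos 3 = cos (1/16 - sin^2). -/
def S_LONE : Prop :=
  ∫ x in (0:ℝ)..1, |(-3/16) * Real.cos (2 * Real.pi * x) + (1/4) * Real.cos (6 * Real.pi * x)|
    ≤ (2 / Real.pi) * (7/24)

/-- DUAL3 -/
def S_DUAL : Prop := ∀ f : ℝ → ℂ, Ext 3 a3 f → ENNReal.ofReal (Real.pi / 2) ≤ sup f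

end Pool.Agent.K6.H60.TZ
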