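import Mathlib
import Pool.Agent.K6.H60.TZ.Stm

open MeasureTheory

namespace Pool.Agent.K6.H60.TZ

/-- the symbol used for N = 2 -/
noncomputable def a2 (n : ℤ) : ℂ :=
  if n = 0 then -1/3 else if n = 1 ∨ n = -1 then -2/3 else if n = 2 ∨ n = -2 then 2/3 else 0

namespace LTWO

noncomputable def q (x : ℝ) : ℝ := Real.cos (4 * Real.pi * x) - Real.cos (2 * Real.pi * x)
noncomputable def F (x : ℝ) : ℝ :=
  Real.sin (4 * Real.pi * x) / (4 * Real.pi) - Real.sin (2 * Real.pi * x) / (2 * Real.pi)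

lemma hasDeriv_sin_mul (c x : ℝ) : HasDerivAt (fun x : ℝ => Real.sin (c * x))
    (Real.cos (c * x) * c) x := by
  have h : HasDerivAt (fun x : ℝ => c * x) c x := by
    simpa using (hasDerivAt_id x).const_mul c
  exact (Real.hasDerivAt_sin (c * x)).comp x h

lemma hasDeriv (x : ℝ) : HasDerivAt F (q x) x := by
  have hp := Real.pi_pos.ne'
  have h := ((hasDeriv_sin_mul (4 * Real.pi) x).div_const (4 * Real.pi)).sub
    ((hasDeriv_sin_mul (2 * Real.pi) x).div_const (2 * Real.pi))
  have e : q x = Real.cos (4 * Real.pi * x) * (4 * Real.pi) / (4 * Real.pi) -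
      Real.cos (2 * Real.pi * x) * (2 * Real.pi) / (2 * Real.pi) := by
    unfold q
    rw [mul_div_cancel_right₀ _ (by positivity), mul_div_cancel_right₀ _ (by positivity)]
  rw [e]
  exact h

lemma q_cont : Continuous q := by unfold q; fun_prop

lemma int_q (a b : ℝ) : ∫ x in a..b, q x = F b - F a :=
  intervalIntegral.integral_eq_sub_of_hasDerivAt (fun x _ => hasDeriv x)
    (q_cont.intervalIntegrable _ _)

lemma q_eq (x : ℝ) : q x = (Real.cos (2 * Real.pi * x) - 1) * (2 * Real.cos (2 * Real.pi * x) + 1) := by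
  unfold q
  have : 4 * Real.pi * x = 2 * (2 * Real.pi * x) := by ring
  rw [this, Real.cos_two_mul]; ring

lemma cos23 : Real.cos (2 * Real.pi / 3) = -1/2 := by
  have : 2 * Real.pi / 3 = Real.pi - Real.pi / 3 := by ring
  rw [this, Real.cos_pi_sub, Real.cos_pi_div_three]; norm_num

lemma sin23 : Real.sin (2 * Real.pi / 3) = Real.sqrt 3 / 2 := by
  have : 2 * Real.pi / 3 = Real.pi - Real.pi / 3 := by ring
  rw [this, Real.sin_pi_sub, Real.sin_pi_div_three]

lemma neg_left {x : ℝ} (h0 : 0 ≤ x) (h1 : x ≤ 1/3) : q x ≤ 0 := by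
  rw [q_eq]
  have hp := Real.pi_pos
  have h : Real.cos (2 * Real.pi / 3) ≤ Real.cos (2 * Real.pi * x) := by
    apply Real.cos_le_cos_of_nonneg_of_le_pi
    · positivity
    · nlinarith
    · nlinarith
  rw [cos23] at h
  have h2 := Real.cos_le_one (2 * Real.pi * x)
  nlinarith

lemma pos_mid {x : ℝ} (h0 : 1/3 ≤ x) (h1 : x ≤ 2/3) : 0 ≤ q x := by
  rw [q_eq]
  have hp := Real.pi_pos
  have h : Real.cos (2 * Real.pi * x) ≤ -1/2 := by
    by_cases hx : x ≤ 1/2
    · rw [← cos23]
      apply Real.cos_le_cos_of_nonneg_of_le_pi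
      · positivity
      · nlinarith
      · nlinarith
    · have e : Real.cos (2 * Real.pi * x) = Real.cos (2 * Real.pi * (1 - x)) := by
        have : 2 * Real.pi * (1 - x) = 2 * Real.pi - 2 * Real.pi * x := by ring
        rw [this, Real.cos_two_pi_sub]
      rw [e, ← cos23]
      push Not at hx
      apply Real.cos_le_cos_of_nonneg_of_le_pi
      · positivity
      · nlinarith
      · nlinarith
  have h2 := Real.cos_le_one (2 * Real.pi * x)
  nlinarith

lemma neg_right {x : ℝ} (h0 : 2/3 ≤ x) (h1 : x ≤ 1) : q x ≤ 0 := by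
  have e : q x = q (1 - x) := by
    rw [q_eq, q_eq]
    have : 2 * Real.pi * (1 - x) = 2 * Real.pi - 2 * Real.pi * x := by ring
    rw [this, Real.cos_two_pi_sub]
  rw [e]
  exact neg_left (by linarith) (by linarith)

lemma F13 : F (1/3) = -(3 * Real.sqrt 3) / (8 * Real.pi) := by
  unfold F
  have h1 : Real.sin (4 * Real.pi * (1/3)) = - (Real.sqrt 3 / 2) := by
    have : 4 * Real.pi * (1/3) = Real.pi / 3 + Real.pi := by ring
    rw [this, Real.sin_add_pi, Real.sin_pi_div_three]
  have h2 : Real.sin (2 * Real.pi * (1/3)) = Real.sqrt 3 / 2 := by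
    rw [← sin23]; congr 1; ring
  rw [h1, h2]
  have hp := Real.pi_pos.ne'
  field_simp
  ring

lemma F23 : F (2/3) = (3 * Real.sqrt 3) / (8 * Real.pi) := by
  unfold F
  have h1 : Real.sin (4 * Real.pi * (2/3)) = (Real.sqrt 3 / 2) := by
    have : 4 * Real.pi * (2/3) = 2 * Real.pi / 3 + 2 * Real.pi := by ring
    rw [this, Real.sin_add_two_pi, sin23]
  have h2 : Real.sin (2 * Real.pi * (2/3)) = - (Real.sqrt 3 / 2) := by
    have : 2 * Real.pi * (2/3) = Real.pi / 3 + Real.pi := by ring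
    rw [this, Real.sin_add_pi, Real.sin_pi_div_three]
  rw [h1, h2]
  have hp := Real.pi_pos.ne'
  field_simp
  ring

lemma F0 : F 0 = 0 := by simp [F]
lemma F1 : F 1 = 0 := by
  unfold F
  have h1 : Real.sin (4 * Real.pi * 1) = 0 := by
    have : 4 * Real.pi * 1 = (4 : ℕ) * Real.pi := by push_cast; ring
    rw [this, Real.sin_nat_mul_pi]
  have h2 : Real.sin (2 * Real.pi * 1) = 0 := by
    have : 2 * Real.pi * 1 = (2 : ℕ) * Real.pi := by push_cast; ring
    rw [this, Real.sin_nat_mul_pi]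
  rw [h1, h2]; simp

theorem lone : ∫ x in (0:ℝ)..1, |q x| = 3 * Real.sqrt 3 / (2 * Real.pi) := by
  have hi : ∀ a b : ℝ, IntervalIntegrable (fun x => |q x|) volume a b :=
    fun a b => (q_cont.abs).intervalIntegrable a b
  rw [← intervalIntegral.integral_add_adjacent_intervals (hi 0 (1/3)) (hi (1/3) 1),
    ← intervalIntegral.integral_add_adjacent_intervals (hi (1/3) (2/3)) (hi (2/3) 1)]
  have e1 : ∫ x in (0:ℝ)..(1/3), |q x| = ∫ x in (0:ℝ)..(1/3), -q x := by
    apply intervalIntegral.integral_congr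
    intro x hx
    rw [Set.uIcc_of_le (by norm_num)] at hx
    exact abs_of_nonpos (neg_left hx.1 hx.2)
  have e2 : ∫ x in (1/3:ℝ)..(2/3), |q x| = ∫ x in (1/3:ℝ)..(2/3), q x := by
    apply intervalIntegral.integral_congr
    intro x hx
    rw [Set.uIcc_of_le (by norm_num)] at hx
    exact abs_of_nonneg (pos_mid hx.1 hx.2)
  have e3 : ∫ x in (2/3:ℝ)..1, |q x| = ∫ x in (2/3:ℝ)..1, -q x := by
    apply intervalIntegral.integral_congr
    intro x hx
    rw [Set.uIcc_of_le (by norm_num)] at hx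
    exact abs_of_nonpos (neg_right hx.1 hx.2)
  rw [e1, e2, e3, intervalIntegral.integral_neg, intervalIntegral.integral_neg, int_q, int_q, int_q,
    F0, F1, F13, F23]
  have hp := Real.pi_pos.ne'
  field_simp
  ring

end LTWO
end Pool.Agent.K6.H60.TZ
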