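import Mathlib
import Pool.Agent.K6.H60.TZ.Stm
import Pool.Agent.K6.H60.TZ.LTWO

open MeasureTheory

namespace Pool.Agent.K6.H60.TZ
namespace DTWO

lemma memLp_intervalIntegrable {f : ℝ → ℂ} (hf : MemLp f ⊤ (volume.restrict (Set.Ioc (0:ℝ) 1))) :
    IntervalIntegrable f volume 0 1 := by
  rw [intervalIntegrable_iff_integrableOn_Ioc_of_le (by norm_num)]
  exact hf.integrable le_top

lemma ae_bound {f : ℝ → ℂ} (hf : MemLp f ⊤ (volume.restrict (Set.Ioc (0:ℝ) 1))) :
    ∀ᵐ x ∂(volume.restrict (Set.Ioc (0:ℝ) 1)), ‖f x‖ ≤ (sup f).toReal := by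
  have h := ae_le_eLpNormEssSup (f := f) (μ := volume.restrict (Set.Ioc (0:ℝ) 1))
  filter_upwards [h] with x hx
  have hs : sup f = eLpNormEssSup f (volume.restrict (Set.Ioc (0:ℝ) 1)) := by
    unfold sup; rw [eLpNorm_exponent_top]
  have hlt : sup f ≠ ⊤ := hf.2.ne
  rw [← hs] at hx
  have := ENNReal.toReal_mono hlt hx
  simpa using this

theorem dual_gen {f : ℝ → ℂ} (hf : MemLp f ⊤ (volume.restrict (Set.Ioc (0:ℝ) 1)))
    (q : ℝ → ℝ) (hq : Continuous q) :
    ‖∫ x in (0:ℝ)..1, f x * (q x : ℂ)‖ ≤ (sup f).toReal * ∫ x in (0:ℝ)..1, |q x| := by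
  rw [← intervalIntegral.integral_const_mul]
  rw [intervalIntegral.integral_of_le (by norm_num), intervalIntegral.integral_of_le (by norm_num)]
  apply norm_integral_le_of_norm_le
  · have : IntervalIntegrable (fun x => (sup f).toReal * |q x|) volume 0 1 :=
      (continuous_const.mul hq.abs).intervalIntegrable _ _
    rwa [intervalIntegrable_iff_integrableOn_Ioc_of_le (by norm_num)] at this
  · filter_upwards [ae_bound hf] with x hx
    rw [norm_mul, Complex.norm_real, Real.norm_eq_abs]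
    exact mul_le_mul_of_nonneg_right hx (abs_nonneg _)

lemma coef_cos {f : ℝ → ℂ} (hf : MemLp f ⊤ (volume.restrict (Set.Ioc (0:ℝ) 1))) (m : ℤ) :
    ∫ x in (0:ℝ)..1, f x * (Real.cos (2 * Real.pi * m * x) : ℂ) = (coef f m + coef f (-m)) / 2 := by
  have hi := memLp_intervalIntegrable hf
  have h1 : IntervalIntegrable (fun x : ℝ => f x * Complex.exp (-(2 * Real.pi * m * x) * Complex.I))
      volume 0 1 := hi.mul_continuousOn (by fun_prop)
  have h2 : IntervalIntegrable (fun x : ℝ => f x * Complex.exp (-(2 * Real.pi * (-m : ℤ) * x) * Complex.I))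
      volume 0 1 := hi.mul_continuousOn (by fun_prop)
  unfold coef
  rw [← intervalIntegral.integral_add h1 h2, ← intervalIntegral.integral_div]
  apply intervalIntegral.integral_congr
  intro x _
  simp only
  rw [Complex.ofReal_cos, Complex.cos]
  push_cast
  have e1 : (-(2 * (Real.pi : ℂ) * (m : ℂ) * (x : ℂ)) * Complex.I) = -(2 * Real.pi * m * x * Complex.I) := by ring
  have e2 : (-(2 * (Real.pi : ℂ) * (-(m : ℂ)) * (x : ℂ)) * Complex.I) = (2 * Real.pi * m * x * Complex.I) := by ring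
  have e3 : (-(2 * (Real.pi : ℂ) * (m : ℂ) * (x : ℂ)) * Complex.I) = (-(2 * Real.pi * m * x) * Complex.I) := by ring
  rw [e2]
  ring

theorem sup2 {f : ℝ → ℂ} (hf : Ext 2 a2 f) :
    8 * Real.pi / (9 * Real.sqrt 3) ≤ (sup f).toReal := by
  have hm := hf.1
  have hi := memLp_intervalIntegrable hm
  have h := dual_gen hm LTWO.q LTWO.q_cont
  rw [LTWO.lone] at h
  have c1 := coef_cos hm 1
  have c2 := coef_cos hm 2
  have v1 : coef f 1 = -2/3 := by rw [hf.2 1 (by norm_num)]; simp [a2]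
  have v1' : coef f (-1) = -2/3 := by rw [hf.2 (-1) (by norm_num)]; simp [a2]
  have v2 : coef f 2 = 2/3 := by rw [hf.2 2 (by norm_num)]; simp [a2]
  have v2' : coef f (-2) = 2/3 := by rw [hf.2 (-2) (by norm_num)]; simp [a2]
  rw [v1, v1'] at c1
  rw [v2, v2'] at c2
  have hint : ∫ x in (0:ℝ)..1, f x * (LTWO.q x : ℂ) = 4/3 := by
    have i1 : IntervalIntegrable (fun x : ℝ => f x * (Real.cos (2 * Real.pi * (1:ℤ) * x) : ℂ)) volume 0 1 :=
      hi.mul_continuousOn (by fun_prop)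
    have i2 : IntervalIntegrable (fun x : ℝ => f x * (Real.cos (2 * Real.pi * (2:ℤ) * x) : ℂ)) volume 0 1 :=
      hi.mul_continuousOn (by fun_prop)
    have : ∫ x in (0:ℝ)..1, f x * (LTWO.q x : ℂ) =
        (∫ x in (0:ℝ)..1, f x * (Real.cos (2 * Real.pi * (2:ℤ) * x) : ℂ)) -
        ∫ x in (0:ℝ)..1, f x * (Real.cos (2 * Real.pi * (1:ℤ) * x) : ℂ) := by
      rw [← intervalIntegral.integral_sub i2 i1]
      apply intervalIntegral.integral_congr
      intro x _
      simp only [LTWO.q]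
      have e1 : 4 * Real.pi * x = 2 * Real.pi * ((2:ℤ):ℝ) * x := by push_cast; ring
      have e2 : 2 * Real.pi * x = 2 * Real.pi * ((1:ℤ):ℝ) * x := by push_cast; ring
      rw [e1, Complex.ofReal_sub]
      conv_lhs => rw [e2]
      ring_nf
    rw [this, c1, c2]; norm_num
  rw [hint] at h
  have hn : ‖(4/3 : ℂ)‖ = 4/3 := by
    have : (4/3 : ℂ) = ((4/3 : ℝ) : ℂ) := by push_cast; rfl
    rw [this, Complex.norm_real]; norm_num
  rw [hn] at h
  have hp := Real.pi_pos
  have hs : 0 < Real.sqrt 3 := by positivity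
  rw [div_le_iff₀ (by positivity)]
  have h' : 4/3 * (2 * Real.pi) ≤ (sup f).toReal * (3 * Real.sqrt 3) := by
    have e : (sup f).toReal * (3 * Real.sqrt 3 / (2 * Real.pi)) =
      ((sup f).toReal * (3 * Real.sqrt 3)) / (2 * Real.pi) := by ring
    rw [e, le_div_iff₀ (by positivity)] at h
    linarith
  nlinarith

theorem nrm2 : nrm 2 a2 ≤ 1 := by
  unfold nrm
  apply ContinuousLinearMap.opNorm_le_bound _ (by norm_num)
  intro x
  rw [one_mul]
  apply le_of_sq_le_sq _ (norm_nonneg _)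
  rw [EuclideanSpace.norm_sq_eq, EuclideanSpace.norm_sq_eq]
  have e : ∀ i : Fin 3, (Matrix.toEuclideanCLM (n := Fin (2+1)) (𝕜 := ℂ) (toep 2 a2) x) i =
      ∑ j : Fin 3, toep 2 a2 i j * x j := fun i => rfl
  have e0 : ∑ j : Fin 3, toep 2 a2 0 j * x j = (-1/3) * x 0 + (-2/3) * x 1 + (2/3) * x 2 := by
    rw [Fin.sum_univ_three]
    simp [toep, a2]
  have e1 : ∑ j : Fin 3, toep 2 a2 1 j * x j = (-2/3) * x 0 + (-1/3) * x 1 + (-2/3) * x 2 := by
    rw [Fin.sum_univ_three]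
    simp [toep, a2]
  have e2 : ∑ j : Fin 3, toep 2 a2 2 j * x j = (2/3) * x 0 + (-2/3) * x 1 + (-1/3) * x 2 := by
    rw [Fin.sum_univ_three]
    simp [toep, a2]
  have s1 := Fin.sum_univ_three (fun i : Fin 3 =>
    ‖(Matrix.toEuclideanCLM (n := Fin (2+1)) (𝕜 := ℂ) (toep 2 a2) x) i‖ ^ 2)
  have s2 := Fin.sum_univ_three (fun i : Fin 3 => ‖x i‖ ^ 2)
  simp only [e, e0, e1, e2] at s1
  refine le_of_eq (s1.trans (Eq.trans ?_ s2.symm))
  simp only [Complex.sq_norm, Complex.normSq_apply]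
  simp
  ring

end DTWO
end Pool.Agent.K6.H60.TZ
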