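import Pool.Agent.K6.H60.TZ.Stm

open MeasureTheory

namespace Pool.Agent.K6.H60.TZ

namespace TRANS

/-- the measure on the circle -/
noncomputable abbrev μ : Measure ℝ := volume.restrict (Set.Ioc (0:ℝ) 1)

lemma qmp (k j : ℕ) (hk : 1 ≤ k) (hj : j < k) :
    Measure.QuasiMeasurePreserving (fun x : ℝ => x / k + j / k) μ μ := by
  have hk0 : (0:ℝ) < k := by exact_mod_cast hk
  have h1 : Measure.QuasiMeasurePreserving (fun x : ℝ => (k:ℝ)⁻¹ * x) volume volume := by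
    refine ⟨by fun_prop, ?_⟩
    rw [Real.map_volume_mul_left (inv_ne_zero hk0.ne')]
    exact Measure.AbsolutelyContinuous.rfl.smul_left _
  have h2 : Measure.QuasiMeasurePreserving (fun x : ℝ => x + (j / k : ℝ)) volume volume :=
    (measurePreserving_add_right volume (j / k : ℝ)).quasiMeasurePreserving
  have h3 := h2.comp h1
  have h4 : ((fun x : ℝ => x + (j / k : ℝ)) ∘ fun x : ℝ => (k:ℝ)⁻¹ * x) =
      fun x : ℝ => x / k + j / k := by
    funext x
    simp only [Function.comp]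
    ring
  rw [h4] at h3
  refine h3.restrict fun x hx => ?_
  have hj' : (j:ℝ) + 1 ≤ k := by exact_mod_cast hj
  have hj0 : (0:ℝ) ≤ j := Nat.cast_nonneg j
  constructor
  · have : 0 < x / k := div_pos hx.1 hk0
    have : 0 ≤ (j:ℝ) / k := div_nonneg hj0 hk0.le
    show 0 < x / k + j / k
    linarith
  · show x / k + j / k ≤ 1
    rw [← add_div, div_le_one hk0]
    linarith [hx.2]

lemma sup_comp {f : ℝ → ℂ} {φ : ℝ → ℝ} (hφ : Measure.QuasiMeasurePreserving φ μ μ) :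
    eLpNorm (fun x => f (φ x)) ⊤ μ ≤ eLpNorm f ⊤ μ := by
  rw [eLpNorm_exponent_top, eLpNorm_exponent_top]
  unfold eLpNormEssSup
  exact (essSup_comp_le_essSup_map_measure (g := fun y => ‖f y‖ₑ) hφ.aemeasurable).trans
    (essSup_mono_measure hφ.absolutelyContinuous)

lemma memLp_comp {f : ℝ → ℂ} (hf : MemLp f ⊤ μ) {φ : ℝ → ℝ}
    (hφ : Measure.QuasiMeasurePreserving φ μ μ) : MemLp (fun x => f (φ x)) ⊤ μ :=
  ⟨hf.1.comp_quasiMeasurePreserving hφ, (sup_comp hφ).trans_lt hf.2⟩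

/-- the transfer operator -/
noncomputable def G (k : ℕ) (f : ℝ → ℂ) (x : ℝ) : ℂ :=
  (k:ℂ)⁻¹ * ∑ j ∈ Finset.range k, f (x / k + j / k)

lemma memLp_G {k : ℕ} (hk : 1 ≤ k) {f : ℝ → ℂ} (hf : MemLp f ⊤ μ) : MemLp (G k f) ⊤ μ := by
  unfold G
  refine MemLp.const_mul ?_ _
  exact memLp_finsetSum _ fun j hj => memLp_comp hf (qmp k j hk (Finset.mem_range.1 hj))

lemma sup_G {k : ℕ} (hk : 1 ≤ k) {f : ℝ → ℂ} (hf : MemLp f ⊤ μ) :
    eLpNorm (G k f) ⊤ μ ≤ eLpNorm f ⊤ μ := by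
  have h1 : G k f = (k:ℂ)⁻¹ • ∑ j ∈ Finset.range k, fun x : ℝ => f (x / k + j / k) := by
    funext x
    simp [G]
  rw [h1, eLpNorm_const_smul]
  have h2 : eLpNorm (∑ j ∈ Finset.range k, fun x : ℝ => f (x / k + j / k)) ⊤ μ ≤
      k * eLpNorm f ⊤ μ := by
    refine (eLpNorm_sum_le (fun j hj => (memLp_comp hf
      (qmp k j hk (Finset.mem_range.1 hj))).1) (by simp)).trans ?_
    refine (Finset.sum_le_sum fun j hj => sup_comp (qmp k j hk (Finset.mem_range.1 hj))).trans ?_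
    simp
  have hk0 : (k:ENNReal) ≠ 0 := by exact_mod_cast (by omega : k ≠ 0)
  calc ‖(k:ℂ)⁻¹‖ₑ * eLpNorm (∑ j ∈ Finset.range k, fun x : ℝ => f (x / k + j / k)) ⊤ μ
      ≤ ‖(k:ℂ)⁻¹‖ₑ * (k * eLpNorm f ⊤ μ) := mul_le_mul_right h2 _
    _ = eLpNorm f ⊤ μ := by
      have h3 : ‖(k:ℂ)⁻¹‖ₑ = (k:ENNReal)⁻¹ := by
        rw [enorm_inv (by exact_mod_cast (by omega : k ≠ 0))]
        congr 1
        simp [enorm_eq_nnnorm]
      rw [h3, ← mul_assoc, ENNReal.inv_mul_cancel hk0 (by simp), one_mul]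

lemma intervalIntegrable_of_memLp {f : ℝ → ℂ} (hf : MemLp f ⊤ μ) (n : ℤ) :
    IntervalIntegrable (fun x : ℝ => f x * Complex.exp (-(2 * Real.pi * n * x) * Complex.I))
      volume 0 1 := by
  rw [intervalIntegrable_iff_integrableOn_Ioc_of_le zero_le_one]
  have h1 : Integrable f μ := hf.integrable le_top
  have h2 : Integrable (fun x : ℝ => Complex.exp (-(2 * Real.pi * n * x) * Complex.I) * f x) μ := by
    refine h1.bdd_mul (c := 1) (by fun_prop) (Filter.Eventually.of_forall fun x => ?_)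
    have : (-(2 * Real.pi * n * x) * Complex.I : ℂ) =
        ((-(2 * Real.pi * n * x) : ℝ) : ℂ) * Complex.I := by push_cast; ring
    rw [this, Complex.norm_exp_ofReal_mul_I]
  refine h2.congr (Filter.Eventually.of_forall fun x => ?_)
  exact mul_comm _ _

end TRANS

open TRANS

theorem t_TRANS : S_TRANS := by
  intro N k M a f hk hkN ⟨hf, hcoef⟩
  refine ⟨G k f, ⟨memLp_G hk hf, fun n hn => ?_⟩, sup_G hk hf⟩
  have hk0 : (0:ℝ) < k := by exact_mod_cast hk
  have hkc : (k:ℂ) ≠ 0 := by exact_mod_cast (by omega : k ≠ 0)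
  set h : ℝ → ℂ := fun x => f x *
    Complex.exp (-(2 * Real.pi * ((n * k : ℤ) : ℂ) * x) * Complex.I) with hh
  have hint : IntervalIntegrable h volume 0 1 := intervalIntegrable_of_memLp hf (n * k)
  have h1 : ∀ (j : ℕ) (x : ℝ), f (x / k + j / k) *
      Complex.exp (-(2 * Real.pi * n * x) * Complex.I) = h (x / k + j / k) := by
    intro j x
    simp only [hh]
    congr 1
    rw [Complex.exp_eq_exp_iff_exists_int]
    refine ⟨n * j, ?_⟩
    push_cast
    field_simp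
    ring
  have hsub : ∀ j < k, Set.uIcc ((j:ℝ) / k) (((j + 1 : ℕ) : ℝ) / k) ⊆ Set.uIcc (0:ℝ) 1 := by
    intro j hj
    have hj' : ((j + 1 : ℕ) : ℝ) ≤ k := by exact_mod_cast hj
    have e1 : (0:ℝ) ≤ (j:ℝ) / k := by positivity
    have e2 : ((j + 1 : ℕ) : ℝ) / k ≤ 1 := by rw [div_le_one hk0]; exact hj'
    have e3 : (j:ℝ) / k ≤ ((j + 1 : ℕ) : ℝ) / k := by
      gcongr
      omega
    rw [Set.uIcc_of_le e3, Set.uIcc_of_le zero_le_one]
    exact Set.Icc_subset_Icc e1 e2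
  have hintj : ∀ j < k, IntervalIntegrable h volume ((j:ℝ) / k) (((j + 1 : ℕ) : ℝ) / k) :=
    fun j hj => hint.mono_set (hsub j hj)
  have h2 : coef (G k f) n = ∫ x in (0:ℝ)..1, (k:ℂ)⁻¹ * ∑ j ∈ Finset.range k, h (x / k + j / k) := by
    unfold coef G
    refine intervalIntegral.integral_congr fun x _ => ?_
    show (k:ℂ)⁻¹ * (∑ j ∈ Finset.range k, f (x / k + j / k)) *
      Complex.exp (-(2 * Real.pi * n * x) * Complex.I) = _
    rw [mul_assoc, Finset.sum_mul]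
    congr 1
    exact Finset.sum_congr rfl fun j _ => h1 j x
  have h3 : ∀ j ∈ Finset.range k, IntervalIntegrable (fun x : ℝ => h (x / k + j / k)) volume 0 1 := by
    intro j hj
    have hj := Finset.mem_range.1 hj
    have h4 := intervalIntegrable_of_memLp (memLp_comp hf (qmp k j hk hj)) n
    exact h4.congr fun x _ => h1 j x
  rw [h2, intervalIntegral.integral_const_mul, intervalIntegral.integral_finsetSum h3]
  have h5 : ∀ j ∈ Finset.range k, ∫ x in (0:ℝ)..1, h (x / k + j / k) =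
      (k:ℂ) * ∫ x in ((j:ℝ) / k)..(((j + 1 : ℕ) : ℝ) / k), h x := by
    intro j _
    rw [intervalIntegral.integral_comp_div_add h hk0.ne' ((j:ℝ) / k), zero_div, zero_add]
    have : (1:ℝ) / k + j / k = ((j + 1 : ℕ) : ℝ) / k := by push_cast; ring
    rw [this]
    simp
  rw [Finset.sum_congr rfl h5, ← Finset.mul_sum, ← mul_assoc, inv_mul_cancel₀ hkc, one_mul,
    intervalIntegral.sum_integral_adjacent_intervals (a := fun j : ℕ => (j:ℝ) / k) hintj]
  simp only [Nat.cast_zero, zero_div, div_self hk0.ne']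
  have h6 : ∫ x in (0:ℝ)..1, h x = coef f (n * k) := rfl
  have h7 : |n * (k:ℤ)| ≤ M := by
    rw [abs_mul, Nat.abs_cast]
    calc |n| * (k:ℤ) ≤ N * k := mul_le_mul_of_nonneg_right hn (by positivity)
      _ = ((k * N : ℕ) : ℤ) := by push_cast; ring
      _ ≤ M := by exact_mod_cast hkN
  rw [h6, hcoef _ h7]
  unfold dil
  have hk1 : (k:ℤ) ≠ 0 := by exact_mod_cast (by omega : k ≠ 0)
  rw [if_pos (Dvd.intro_left n rfl), Int.mul_ediv_cancel n hk1]

end Pool.Agent.K6.H60.TZ
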