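import Mathlib
import Pool.Agent.K6.H60.TZ.Stm
import Pool.Agent.K6.H60.TZ.TRANS
import Pool.Agent.K6.H60.TZ.DTWO

open MeasureTheory

namespace Pool.Agent.K6.H60.TZ
namespace ASM

lemma dil_mul (k : ℕ) (hk : 1 ≤ k) (a : ℤ → ℂ) (n : ℤ) : dil k a ((k:ℤ) * n) = a n := by
  unfold dil
  rw [if_pos (Dvd.intro n rfl)]
  have : (k:ℤ) ≠ 0 := by exact_mod_cast (by omega : k ≠ 0)
  rw [Int.mul_ediv_cancel_left _ this]

lemma toep_dil_ne {N k M : ℕ} {a : ℤ → ℂ} (hk : 1 ≤ k) (hM : k * N ≤ M)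
    (h : toep N a ≠ 0) : toep M (dil k a) ≠ 0 := by
  intro h0
  apply h
  ext i j
  have hi : k * (i : ℕ) < M + 1 := by
    have : (i : ℕ) ≤ N := by omega
    have := Nat.mul_le_mul_left k this
    omega
  have hj : k * (j : ℕ) < M + 1 := by
    have : (j : ℕ) ≤ N := by omega
    have := Nat.mul_le_mul_left k this
    omega
  have e := congrFun (congrFun h0 ⟨k * i, hi⟩) ⟨k * j, hj⟩
  simp only [toep, Matrix.of_apply, Matrix.zero_apply] at e ⊢
  rw [← dil_mul k hk a ((i:ℤ) - (j:ℤ)), ← e]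
  congr 1
  push_cast
  ring

lemma selfAdj_dil {N k M : ℕ} {a : ℤ → ℂ} (hk : 1 ≤ k) (hM : M + 1 ≤ k * (N + 1))
    (h : SelfAdj N a) : SelfAdj M (dil k a) := by
  intro n hn
  by_cases hd : (k:ℤ) ∣ n
  · obtain ⟨m, rfl⟩ := hd
    have hm : |m| ≤ N := by
      rw [abs_mul] at hn
      have hk' : |(k:ℤ)| = k := abs_of_nonneg (by positivity)
      rw [hk'] at hn
      have h1 : (k:ℤ) * |m| < k * (N + 1) := by
        have : ((M:ℤ) + 1) ≤ k * (N + 1) := by exact_mod_cast hM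
        linarith
      have h2 : |m| < (N:ℤ) + 1 := lt_of_mul_lt_mul_left h1 (by positivity)
      omega
    have e : -((k:ℤ) * m) = (k:ℤ) * (-m) := by ring
    rw [e, dil_mul k hk, dil_mul k hk, h m hm]
  · unfold dil
    rw [if_neg hd, if_neg (by rwa [Int.dvd_neg]), star_zero]

theorem mono (hN : S_NORM) (hT : S_TRANS) {N k M : ℕ} (hk : 1 ≤ k) (h1 : k * N ≤ M)
    (h2 : M + 1 ≤ k * (N + 1)) : c N ≤ c M := by
  unfold c
  refine iSup_le fun a => iSup_le fun hs => iSup_le fun hne => ?_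
  have hcA : cA N a ≤ cA M (dil k a) := by
    refine le_iInf fun f => le_iInf fun hf => ?_
    obtain ⟨g, hg, hgf⟩ := hT N k M a f hk h1 hf
    exact (iInf₂_le (f := fun (f : ℝ → ℂ) (_ : Ext N a f) => sup f) g hg).trans hgf
  have hdiv : cA N a / ENNReal.ofReal (nrm N a) ≤
      cA M (dil k a) / ENNReal.ofReal (nrm M (dil k a)) :=
    ENNReal.div_le_div hcA (ENNReal.ofReal_le_ofReal (hN N k M a hk h1 h2))
  refine hdiv.trans ?_
  exact le_iSup_of_le (dil k a) (le_iSup_of_le (selfAdj_dil hk h2 hs)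
    (le_iSup_of_le (toep_dil_ne hk h1 hne) le_rfl))

theorem mono_sq (hN : S_NORM) (hT : S_TRANS) {N M : ℕ} (h : N ^ 2 ≤ M) : c N ≤ c M := by
  rcases Nat.eq_zero_or_pos N with rfl | hpos
  · exact mono hN hT (k := M + 1) (by omega) (by omega) (by omega)
  · have hk : N ≤ M / N := by
      rw [Nat.le_div_iff_mul_le hpos]; nlinarith
    have hd := Nat.div_add_mod M N
    have hr := Nat.mod_lt M hpos
    refine mono hN hT (k := M / N) (by omega) ?_ ?_
    · rw [mul_comm]; omega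
    · have : M / N * (N + 1) = N * (M / N) + M / N := by ring
      rw [this]; omega

theorem lim (hN : S_NORM) (hT : S_TRANS) :
    Filter.Tendsto c Filter.atTop (nhds (⨆ N, c N)) := by
  rw [tendsto_order]
  constructor
  · intro b hb
    obtain ⟨N, hNb⟩ := lt_iSup_iff.1 hb
    filter_upwards [Filter.eventually_ge_atTop (N ^ 2)] with M hM
    exact hNb.trans_le (mono_sq hN hT hM)
  · intro b hb
    exact Filter.Eventually.of_forall fun M => (le_iSup c M).trans_lt hb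

lemma selfAdj_a2 : SelfAdj 2 a2 := by
  intro n hn
  have : n = -2 ∨ n = -1 ∨ n = 0 ∨ n = 1 ∨ n = 2 := by
    rw [abs_le] at hn; push_cast at hn; omega
  rcases this with rfl | rfl | rfl | rfl | rfl <;> simp [a2]

lemma toep_a2 : toep 2 a2 ≠ 0 := by
  intro h
  have := congrFun (congrFun h 0) 0
  simp [toep, a2] at this

theorem two : ENNReal.ofReal (8 * Real.pi / (9 * Real.sqrt 3)) ≤ c 2 := by
  have h1 : ENNReal.ofReal (8 * Real.pi / (9 * Real.sqrt 3)) ≤ cA 2 a2 := by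
    refine le_iInf fun f => le_iInf fun hf => ?_
    exact ENNReal.ofReal_le_of_le_toReal (DTWO.sup2 hf)
  have h2 : cA 2 a2 ≤ cA 2 a2 / ENNReal.ofReal (nrm 2 a2) := by
    have : ENNReal.ofReal (nrm 2 a2) ≤ 1 := by
      rw [← ENNReal.ofReal_one]; exact ENNReal.ofReal_le_ofReal DTWO.nrm2
    calc cA 2 a2 = cA 2 a2 / 1 := by rw [div_one]
      _ ≤ _ := ENNReal.div_le_div le_rfl this
  refine (h1.trans h2).trans ?_
  exact le_iSup_of_le a2 (le_iSup_of_le selfAdj_a2 (le_iSup_of_le toep_a2 le_rfl))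

lemma two_num : Real.pi / 2 < 8 * Real.pi / (9 * Real.sqrt 3) := by
  have hp := Real.pi_pos
  have hs : Real.sqrt 3 < 16 / 9 := by
    rw [Real.sqrt_lt' (by norm_num)]; norm_num
  have hs0 : 0 < Real.sqrt 3 := by positivity
  rw [div_lt_div_iff₀ (by norm_num) (by positivity)]
  nlinarith

lemma selfAdj_a3 : SelfAdj 3 a3 := by
  intro n hn
  have : n = -3 ∨ n = -2 ∨ n = -1 ∨ n = 0 ∨ n = 1 ∨ n = 2 ∨ n = 3 := by
    rw [abs_le] at hn; push_cast at hn; omega
  rcases this with rfl | rfl | rfl | rfl | rfl | rfl | rfl <;> simp [a3]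

lemma toep_a3 : toep 3 a3 ≠ 0 := by
  intro h
  have := congrFun (congrFun h 1) 0
  simp [toep, a3] at this

theorem three (hD : S_DUAL) (hN3 : S_NTHREE) :
    ENNReal.ofReal (8 * Real.pi / (9 * Real.sqrt 3)) ≤ c 3 := by
  have h1 : ENNReal.ofReal (Real.pi / 2) ≤ cA 3 a3 :=
    le_iInf fun f => le_iInf fun hf => hD f hf
  have h2 : ENNReal.ofReal (Real.pi / 2) / ENNReal.ofReal (97/100) ≤
      cA 3 a3 / ENNReal.ofReal (nrm 3 a3) :=
    ENNReal.div_le_div h1 (ENNReal.ofReal_le_ofReal hN3)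
  have h3 : ENNReal.ofReal (8 * Real.pi / (9 * Real.sqrt 3)) ≤
      ENNReal.ofReal (Real.pi / 2) / ENNReal.ofReal (97/100) := by
    rw [← ENNReal.ofReal_div_of_pos (by norm_num)]
    apply ENNReal.ofReal_le_ofReal
    have hp := Real.pi_pos
    have hs : 776 / 450 ≤ Real.sqrt 3 := by
      apply Real.le_sqrt_of_sq_le; norm_num
    have hs0 : 0 < Real.sqrt 3 := by positivity
    rw [div_le_div_iff₀ (by positivity) (by norm_num)]
    nlinarith
  refine (h3.trans h2).trans ?_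
  exact le_iSup_of_le a3 (le_iSup_of_le selfAdj_a3 (le_iSup_of_le toep_a3 le_rfl))

theorem two_le (hN : S_NORM) (hT : S_TRANS) {M : ℕ} (h : 4 ≤ M) : c 2 ≤ c M :=
  mono hN hT (k := M / 2) (by omega) (by omega) (by omega)

theorem all (hN : S_NORM) (hT : S_TRANS) (hD : S_DUAL) (hN3 : S_NTHREE) {M : ℕ} (h : 2 ≤ M) :
    ENNReal.ofReal (8 * Real.pi / (9 * Real.sqrt 3)) ≤ c M := by
  rcases (by omega : M = 2 ∨ M = 3 ∨ 4 ≤ M) with rfl | rfl | h4
  · exact two
  · exact three hD hN3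
  · exact two.trans (two_le hN hT h4)

theorem pi_lt : ENNReal.ofReal (Real.pi / 2) <
    ENNReal.ofReal (8 * Real.pi / (9 * Real.sqrt 3)) :=
  (ENNReal.ofReal_lt_ofReal_iff (by positivity)).2 two_num

end ASM
end Pool.Agent.K6.H60.TZ
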