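import Pool.Agent.K6.H60.TZ.Stm

/-! Piece CONE (helper4): `c 1 ≤ π / 2`. -/

set_option autoImplicit false

open MeasureTheory

namespace Pool.Agent.K6.H60.TZ

namespace CONE

/-- the sign of the cosine -/
noncomputable def sg (x : ℝ) : ℝ := if 0 ≤ Real.cos (2 * Real.pi * x) then 1 else -1

theorem sg_per (x : ℝ) : sg (x + 1) = sg x := by
  unfold sg
  rw [show 2 * Real.pi * (x + 1) = 2 * Real.pi * x + 2 * Real.pi by ring, Real.cos_add_two_pi]

theorem sg_abs (x : ℝ) : |sg x| ≤ 1 := by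
  unfold sg
  split_ifs <;> simp

theorem sg_meas : Measurable sg := by
  unfold sg
  refine Measurable.ite (measurableSet_le measurable_const ?_) measurable_const measurable_const
  exact (Real.continuous_cos.comp (continuous_const.mul continuous_id)).measurable

theorem sg_pos {x : ℝ} (h1 : -(1 / 4) ≤ x) (h2 : x ≤ 1 / 4) : sg x = 1 := by
  unfold sg
  rw [if_pos]
  have hp := Real.pi_pos
  apply Real.cos_nonneg_of_mem_Icc
  constructor <;> nlinarith

theorem sg_neg {x : ℝ} (h1 : 1 / 4 < x) (h2 : x < 3 / 4) : sg x = -1 := by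
  unfold sg
  rw [if_neg]
  rw [not_le]
  have hp := Real.pi_pos
  apply Real.cos_neg_of_pi_div_two_lt_of_lt <;> nlinarith

/-- the integrand -/
noncomputable def hh (n : ℤ) (x : ℝ) : ℂ :=
  (sg x : ℂ) * Complex.exp (-(2 * Real.pi * n * x) * Complex.I)

theorem hh_per (n : ℤ) : Function.Periodic (hh n) 1 := by
  intro x
  unfold hh
  rw [sg_per]
  congr 1
  rw [Complex.exp_eq_exp_iff_exists_int]
  refine ⟨-n, ?_⟩
  push_cast
  ring

theorem exp_norm (n : ℤ) (x : ℝ) : ‖Complex.exp (-(2 * Real.pi * n * x) * Complex.I)‖ = 1 := by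
  have : (-(2 * Real.pi * n * x) * Complex.I : ℂ) =
      ((-(2 * Real.pi * n * x) : ℝ) : ℂ) * Complex.I := by push_cast; ring
  rw [this, Complex.norm_exp_ofReal_mul_I]

theorem exp_cont (n : ℤ) : Continuous fun x : ℝ =>
    Complex.exp (-(2 * Real.pi * n * x) * Complex.I) := by fun_prop

theorem hh_int (n : ℤ) (a b : ℝ) : IntervalIntegrable (hh n) volume a b := by
  refine (intervalIntegrable_const (c := (1 : ℝ))).mono_fun ?_ ?_
  · refine Measurable.aestronglyMeasurable ?_
    exact (Complex.measurable_ofReal.comp sg_meas).mul (exp_cont n).measurable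
  · refine Filter.Eventually.of_forall fun x => ?_
    change ‖(sg x : ℂ) * Complex.exp (-(2 * Real.pi * n * x) * Complex.I)‖ ≤ ‖(1 : ℝ)‖
    rw [norm_mul, exp_norm, mul_one, Complex.norm_real, Real.norm_eq_abs, norm_one]
    exact sg_abs x

theorem int_exp (n : ℤ) (hn : n ≠ 0) (a b : ℝ) :
    ∫ x in a..b, Complex.exp (-(2 * Real.pi * n * x) * Complex.I) =
      (Complex.exp (-(2 * Real.pi * n * b) * Complex.I) -
        Complex.exp (-(2 * Real.pi * n * a) * Complex.I)) / (-(2 * Real.pi * n) * Complex.I) := by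
  have h0 : (-(2 * Real.pi * n) * Complex.I : ℂ) ≠ 0 := by
    have h1 : (Real.pi : ℂ) ≠ 0 := Complex.ofReal_ne_zero.2 Real.pi_ne_zero
    have h2 : (n : ℂ) ≠ 0 := Int.cast_ne_zero.2 hn
    simp [h1, h2]
  have h := integral_exp_mul_complex (a := a) (b := b) h0
  calc ∫ x in a..b, Complex.exp (-(2 * Real.pi * n * x) * Complex.I)
      = ∫ x in a..b, Complex.exp (-(2 * Real.pi * n) * Complex.I * x) := by
        congr 1
        funext x
        congr 1
        ring
    _ = _ := by
        rw [h]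
        congr 2 <;> (congr 1; ring)

theorem hh_val (n : ℤ) : ∫ x in (0:ℝ)..1, hh n x =
    (∫ x in (-(1/4):ℝ)..(1/4), Complex.exp (-(2 * Real.pi * n * x) * Complex.I)) -
      ∫ x in (1/4:ℝ)..(3/4), Complex.exp (-(2 * Real.pi * n * x) * Complex.I) := by
  have h1 := (hh_per n).intervalIntegral_add_eq 0 (-(1/4))
  rw [zero_add] at h1
  rw [h1, show (-(1/4) + 1 : ℝ) = 3/4 by norm_num,
    ← intervalIntegral.integral_add_adjacent_intervals (hh_int n _ (1/4)) (hh_int n (1/4) _)]
  rw [sub_eq_add_neg, ← intervalIntegral.integral_neg]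
  congr 1
  · refine intervalIntegral.integral_congr fun x hx => ?_
    rw [Set.uIcc_of_le (by norm_num)] at hx
    simp only [hh]
    rw [sg_pos hx.1 hx.2, Complex.ofReal_one, one_mul]
  · rw [intervalIntegral.integral_of_le (by norm_num), intervalIntegral.integral_of_le (by norm_num),
      integral_Ioc_eq_integral_Ioo, integral_Ioc_eq_integral_Ioo]
    refine setIntegral_congr_fun measurableSet_Ioo fun x hx => ?_
    simp only [hh]
    rw [sg_neg hx.1 hx.2]
    push_cast
    ring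

theorem J0 : ∫ x in (0:ℝ)..1, hh 0 x = 0 := by
  rw [hh_val]
  simp
  norm_num

theorem e1 : Complex.exp (-(Real.pi / 2) * Complex.I) = -Complex.I := by
  rw [show (-(Real.pi / 2) * Complex.I : ℂ) = -(Real.pi / 2 * Complex.I) by ring, Complex.exp_neg,
    Complex.exp_pi_div_two_mul_I, Complex.inv_I]

theorem e2 : Complex.exp (Real.pi / 2 * Complex.I) = Complex.I := Complex.exp_pi_div_two_mul_I

theorem e3 : Complex.exp (-(3 * Real.pi / 2) * Complex.I) = Complex.I := by
  rw [show (-(3 * Real.pi / 2) * Complex.I : ℂ) = Real.pi / 2 * Complex.I - 2 * Real.pi * Complex.I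
    by ring, Complex.exp_sub, Complex.exp_two_pi_mul_I, e2, div_one]

theorem e4 : Complex.exp (3 * Real.pi / 2 * Complex.I) = -Complex.I := by
  rw [show (3 * Real.pi / 2 * Complex.I : ℂ) = -(Real.pi / 2) * Complex.I + 2 * Real.pi * Complex.I
    by ring, Complex.exp_add, Complex.exp_two_pi_mul_I, e1, mul_one]

theorem J1 : ∫ x in (0:ℝ)..1, hh 1 x = 2 / Real.pi := by
  have hp : (Real.pi : ℂ) ≠ 0 := Complex.ofReal_ne_zero.2 Real.pi_ne_zero
  rw [hh_val, int_exp 1 one_ne_zero, int_exp 1 one_ne_zero]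
  have a1 : (-(2 * Real.pi * ((1 : ℤ) : ℂ) * ((1/4 : ℝ) : ℂ)) * Complex.I : ℂ) =
    -(Real.pi / 2) * Complex.I := by push_cast; ring
  have a2 : (-(2 * Real.pi * ((1 : ℤ) : ℂ) * ((-(1/4) : ℝ) : ℂ)) * Complex.I : ℂ) =
    Real.pi / 2 * Complex.I := by push_cast; ring
  have a3 : (-(2 * Real.pi * ((1 : ℤ) : ℂ) * ((3/4 : ℝ) : ℂ)) * Complex.I : ℂ) =
    -(3 * Real.pi / 2) * Complex.I := by push_cast; ring
  rw [a1, a2, a3, e1, e2, e3]
  push_cast
  field_simp
  ring

theorem Jm1 : ∫ x in (0:ℝ)..1, hh (-1) x = 2 / Real.pi := by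
  have hp : (Real.pi : ℂ) ≠ 0 := Complex.ofReal_ne_zero.2 Real.pi_ne_zero
  rw [hh_val, int_exp (-1) (by norm_num), int_exp (-1) (by norm_num)]
  have a1 : (-(2 * Real.pi * ((-1 : ℤ) : ℂ) * ((1/4 : ℝ) : ℂ)) * Complex.I : ℂ) =
    Real.pi / 2 * Complex.I := by push_cast; ring
  have a2 : (-(2 * Real.pi * ((-1 : ℤ) : ℂ) * ((-(1/4) : ℝ) : ℂ)) * Complex.I : ℂ) =
    -(Real.pi / 2) * Complex.I := by push_cast; ring
  have a3 : (-(2 * Real.pi * ((-1 : ℤ) : ℂ) * ((3/4 : ℝ) : ℂ)) * Complex.I : ℂ) =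
    3 * Real.pi / 2 * Complex.I := by push_cast; ring
  rw [a1, a2, a3, e1, e2, e4]
  push_cast
  field_simp
  ring

/-- the shifted function -/
theorem shift (n : ℤ) (θ : ℝ) :
    ∫ x in (0:ℝ)..1, (sg (x + θ) : ℂ) * Complex.exp (-(2 * Real.pi * n * x) * Complex.I) =
      Complex.exp (2 * Real.pi * n * θ * Complex.I) * ∫ x in (0:ℝ)..1, hh n x := by
  have h1 : ∀ x : ℝ, (sg (x + θ) : ℂ) * Complex.exp (-(2 * Real.pi * n * x) * Complex.I) =
      Complex.exp (2 * Real.pi * n * θ * Complex.I) * hh n (x + θ) := by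
    intro x
    unfold hh
    rw [mul_left_comm, ← Complex.exp_add]
    congr 2
    push_cast
    ring
  simp_rw [h1]
  rw [intervalIntegral.integral_const_mul, intervalIntegral.integral_comp_add_right (hh n) θ]
  congr 1
  have h2 := (hh_per n).intervalIntegral_add_eq θ 0
  rw [zero_add] at h2
  rw [← h2, zero_add, add_comm]

theorem exp0 (n : ℤ) (hn : n ≠ 0) :
    ∫ x in (0:ℝ)..1, Complex.exp (-(2 * Real.pi * n * x) * Complex.I) = 0 := by
  rw [int_exp n hn]
  have h1 : Complex.exp (-(2 * Real.pi * n * ((1 : ℝ) : ℂ)) * Complex.I) = 1 := by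
    rw [Complex.exp_eq_one_iff]
    exact ⟨-n, by push_cast; ring⟩
  rw [h1]
  simp

/-- the extension -/
noncomputable def ff (r ρ θ : ℝ) (x : ℝ) : ℂ := (r : ℂ) + ((Real.pi / 2 * ρ * sg (x + θ) : ℝ) : ℂ)

theorem ff_coef (r ρ θ : ℝ) (n : ℤ) : coef (ff r ρ θ) n =
    (r : ℂ) * (∫ x in (0:ℝ)..1, Complex.exp (-(2 * Real.pi * n * x) * Complex.I)) +
    (Real.pi / 2 * ρ : ℂ) * (Complex.exp (2 * Real.pi * n * θ * Complex.I) *
      ∫ x in (0:ℝ)..1, hh n x) := by
  unfold coef
  rw [← shift, ← intervalIntegral.integral_const_mul, ← intervalIntegral.integral_const_mul,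
    ← intervalIntegral.integral_add]
  · congr 1
    funext x
    unfold ff
    push_cast
    ring
  · exact (((exp_cont n).intervalIntegrable _ _).const_mul _)
  · refine IntervalIntegrable.const_mul ?_ _
    have h1 : ∀ x : ℝ, (sg (x + θ) : ℂ) * Complex.exp (-(2 * Real.pi * n * x) * Complex.I) =
        Complex.exp (2 * Real.pi * n * θ * Complex.I) * hh n (x + θ) := by
      intro x
      unfold hh
      rw [mul_left_comm, ← Complex.exp_add]
      congr 2
      push_cast
      ring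
    simp_rw [h1]
    refine IntervalIntegrable.const_mul ?_ _
    have h2 := (hh_int n (0 + θ) (1 + θ)).comp_add_right θ
    rw [add_sub_cancel_right, add_sub_cancel_right] at h2
    exact h2

theorem ff_norm (r ρ θ : ℝ) (hρ : 0 ≤ ρ) (x : ℝ) : ‖ff r ρ θ x‖ ≤ |r| + Real.pi / 2 * ρ := by
  unfold ff
  refine (norm_add_le _ _).trans ?_
  rw [Complex.norm_real, Complex.norm_real, Real.norm_eq_abs, Real.norm_eq_abs, abs_mul]
  have h1 := sg_abs (x + θ)
  have h2 : |Real.pi / 2 * ρ| = Real.pi / 2 * ρ := abs_of_nonneg (by positivity)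
  rw [h2]
  have h3 : 0 ≤ Real.pi / 2 * ρ := by positivity
  nlinarith

theorem ff_meas (r ρ θ : ℝ) : Measurable (ff r ρ θ) := by
  unfold ff
  refine measurable_const.add (Complex.measurable_ofReal.comp (measurable_const.mul ?_))
  exact sg_meas.comp (measurable_id.add_const θ)

theorem nrm_lower (a : ℤ → ℂ) (r : ℝ) (hr : a 0 = r) (hc : a (-1) = star (a 1)) :
    |r| + ‖a 1‖ ≤ nrm 1 a := by
  set E : ℂ := Complex.exp (Complex.arg (a 1) * Complex.I) with hE
  set ρ := ‖a 1‖ with hρ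
  have hα : a 1 = ρ * E := (Complex.norm_mul_exp_arg_mul_I (a 1)).symm
  have hEn : ‖E‖ = 1 := Complex.norm_exp_ofReal_mul_I _
  have hEE : star E * E = 1 := by
    have h1 := Complex.normSq_eq_conj_mul_self (z := E)
    rw [Complex.normSq_eq_norm_sq, hEn] at h1
    simpa using h1.symm
  have hstar : a (-1) = ρ * star E := by
    rw [hc, hα, star_mul']
    congr 1
    exact Complex.conj_ofReal ρ
  have key : ∀ ε : ℝ, ε ^ 2 = 1 → |r + ε * ρ| ≤ nrm 1 a := by
    intro ε hε
    have hε' : |ε| = 1 := by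
      rw [← sq_eq_sq₀ (abs_nonneg _) zero_le_one, sq_abs, hε, one_pow]
    set x : EuclideanSpace ℂ (Fin 2) := WithLp.toLp 2 ![1, (ε : ℂ) * E] with hx
    have h1 := (Matrix.toEuclideanCLM (n := Fin 2) (𝕜 := ℂ) (toep 1 a)).le_opNorm x
    have h2 : ‖x‖ ^ 2 = 2 := by
      rw [EuclideanSpace.norm_sq_eq, Fin.sum_univ_two]
      simp [hx, hEn, hε]
      norm_num
    have h3 : ‖Matrix.toEuclideanCLM (n := Fin 2) (𝕜 := ℂ) (toep 1 a) x‖ ^ 2 =
        2 * |r + ε * ρ| ^ 2 := by
      rw [EuclideanSpace.norm_sq_eq, Matrix.ofLp_toEuclideanCLM, Fin.sum_univ_two]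
      have e1 : (toep 1 a).mulVec x.ofLp 0 = ((r + ε * ρ : ℝ) : ℂ) := by
        simp only [Matrix.mulVec, dotProduct, toep, Matrix.of_apply]
        rw [Fin.sum_univ_two]
        have : (((0 : Fin 2) : ℕ) : ℤ) - (((1 : Fin 2) : ℕ) : ℤ) = -1 := by norm_num
        simp only [this, sub_self, hr, hstar, hx]
        simp only [Matrix.cons_val_zero, Matrix.cons_val_one]
        push_cast
        linear_combination (ρ * ε : ℂ) * hEE
      have e2 : (toep 1 a).mulVec x.ofLp 1 = ((ε * (r + ε * ρ) : ℝ) : ℂ) * E := by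
        simp only [Matrix.mulVec, dotProduct, toep, Matrix.of_apply]
        rw [Fin.sum_univ_two]
        have : (((1 : Fin 2) : ℕ) : ℤ) - (((0 : Fin 2) : ℕ) : ℤ) = 1 := by norm_num
        simp only [this, sub_self, hr, hα, hx]
        simp only [Matrix.cons_val_zero, Matrix.cons_val_one]
        have hε2 : (ε : ℂ) ^ 2 = 1 := by exact_mod_cast hε
        push_cast
        linear_combination (-(ρ : ℂ) * E) * hε2
      rw [e1, e2, norm_mul, hEn, Complex.norm_real, Complex.norm_real, Real.norm_eq_abs,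
        Real.norm_eq_abs, abs_mul, hε']
      ring
    have h4 : 2 * |r + ε * ρ| ^ 2 ≤ nrm 1 a ^ 2 * 2 := by
      rw [← h3, ← h2, ← mul_pow]
      exact pow_le_pow_left₀ (norm_nonneg _) h1 2
    have h5 : |r + ε * ρ| ^ 2 ≤ nrm 1 a ^ 2 := by linarith
    exact (pow_le_pow_iff_left₀ (abs_nonneg _) (norm_nonneg _) two_ne_zero).1 h5
  rcases le_or_gt 0 r with h | h
  · have := key 1 (by norm_num)
    rw [abs_of_nonneg h]
    rw [one_mul, abs_of_nonneg (by positivity)] at this
    exact this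
  · have := key (-1) (by norm_num)
    rw [abs_of_neg h]
    have h6 := neg_abs_le (r + -1 * ρ)
    linarith

end CONE

open CONE in
theorem t_CONE : c 1 ≤ ENNReal.ofReal (Real.pi / 2) := by
  unfold c
  refine iSup_le fun a => iSup_le fun hs => iSup_le fun _ => ?_
  apply ENNReal.div_le_of_le_mul
  have h0 := hs 0 (by simp)
  have h1 := hs 1 (by simp)
  obtain ⟨r, hr⟩ : ∃ r : ℝ, a 0 = r := by
    rw [neg_zero] at h0
    exact ⟨(a 0).re, (Complex.conj_eq_iff_re.1 h0.symm).symm⟩
  set ρ := ‖a 1‖ with hρ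
  set θ := Complex.arg (a 1) / (2 * Real.pi) with hθ
  have hp : (Real.pi : ℂ) ≠ 0 := Complex.ofReal_ne_zero.2 Real.pi_ne_zero
  have hα : (ρ : ℂ) * Complex.exp (Complex.arg (a 1) * Complex.I) = a 1 :=
    Complex.norm_mul_exp_arg_mul_I (a 1)
  have hext : Ext 1 a (ff r ρ θ) := by
    refine ⟨memLp_top_of_bound (ff_meas r ρ θ).aestronglyMeasurable (|r| + Real.pi / 2 * ρ)
      (Filter.Eventually.of_forall fun x => ff_norm r ρ θ (norm_nonneg _) x), ?_⟩
    intro n hn
    have hn' : n = 0 ∨ n = 1 ∨ n = -1 := by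
      have := abs_le.1 hn
      push_cast at this
      omega
    rcases hn' with rfl | rfl | rfl
    · rw [ff_coef, J0, hr]
      simp
    · rw [ff_coef, J1, exp0 1 one_ne_zero]
      have e1 : (2 * Real.pi * ((1 : ℤ) : ℂ) * (θ : ℂ) * Complex.I : ℂ) =
          Complex.arg (a 1) * Complex.I := by
        rw [hθ]
        push_cast
        field_simp
      rw [e1]
      rw [show (r : ℂ) * 0 + Real.pi / 2 * ρ * (Complex.exp (Complex.arg (a 1) * Complex.I) *
        (2 / Real.pi)) = ρ * Complex.exp (Complex.arg (a 1) * Complex.I) by field_simp; ring]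
      exact hα
    · rw [ff_coef, Jm1, exp0 (-1) (by norm_num)]
      have e1 : (2 * Real.pi * ((-1 : ℤ) : ℂ) * (θ : ℂ) * Complex.I : ℂ) =
          -(Complex.arg (a 1) * Complex.I) := by
        rw [hθ]
        push_cast
        field_simp
      have e2 : star (Complex.exp (Complex.arg (a 1) * Complex.I)) =
          Complex.exp (-(Complex.arg (a 1) * Complex.I)) := by
        rw [← starRingEnd_apply, ← Complex.exp_conj, map_mul, Complex.conj_ofReal, Complex.conj_I]
        congr 1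
        ring
      rw [e1, ← e2]
      rw [show (r : ℂ) * 0 + Real.pi / 2 * ρ * (star (Complex.exp (Complex.arg (a 1) * Complex.I)) *
        (2 / Real.pi)) = ρ * star (Complex.exp (Complex.arg (a 1) * Complex.I)) by field_simp; ring]
      have h5 : star (a 1) = star ((ρ : ℂ) * Complex.exp (Complex.arg (a 1) * Complex.I)) := by
        rw [hα]
      rw [h1, h5, star_mul']
      congr 1
      exact (Complex.conj_ofReal ρ).symm
  refine (iInf₂_le (ff r ρ θ) hext).trans ?_
  rw [← ENNReal.ofReal_mul (by positivity)]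
  unfold sup
  rw [eLpNorm_exponent_top]
  refine (eLpNormEssSup_le_of_ae_bound (Filter.Eventually.of_forall fun x =>
    ff_norm r ρ θ (norm_nonneg _) x)).trans ?_
  apply ENNReal.ofReal_le_ofReal
  have h2 := nrm_lower a r hr h1
  have h3 := Real.pi_gt_three
  have h4 := abs_nonneg r
  rw [← hρ] at h2
  nlinarith

end Pool.Agent.K6.H60.TZ
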