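import Mathlib
import Pool.Agent.K6.H60.TZ.Stm
import Pool.Agent.K6.H60.TZ.DTWO

open MeasureTheory

namespace Pool.Agent.K6.H60.TZ
namespace CONE1

/-- what is needed about the sign function -/
def SGN : Prop := ∃ s : ℝ → ℝ, Measurable s ∧ (∀ x, |s x| ≤ 1) ∧ Function.Periodic s 1 ∧
  coef (fun x => (s x : ℂ)) 0 = 0 ∧ coef (fun x => (s x : ℂ)) 1 = 2 / Real.pi ∧
  coef (fun x => (s x : ℂ)) (-1) = 2 / Real.pi

lemma exp_int (n : ℤ) : Complex.exp (2 * Real.pi * n * Complex.I) = 1 := by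
  rw [Complex.exp_eq_one_iff]; exact ⟨n, by ring⟩

lemma coef_shift (s : ℝ → ℝ) (hp : Function.Periodic s 1) (t : ℝ) (n : ℤ) :
    coef (fun x => (s (x + t) : ℂ)) n =
      Complex.exp ((2 * Real.pi * n * t) * Complex.I) * coef (fun x => (s x : ℂ)) n := by
  unfold coef
  set G : ℝ → ℂ := fun y => (s y : ℂ) * Complex.exp (-(2 * Real.pi * n * y) * Complex.I) with hG
  have hper : Function.Periodic G 1 := by
    intro y
    simp only [hG]
    rw [hp y]
    congr 1
    have : (-(2 * (Real.pi : ℂ) * n * ((y + 1 : ℝ) : ℂ)) * Complex.I) =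
      (-(2 * Real.pi * n * y) * Complex.I) + (2 * Real.pi * ((-n : ℤ) : ℂ) * Complex.I) := by
      push_cast; ring
    rw [this, Complex.exp_add, exp_int, mul_one]
  have e : ∀ x : ℝ, (s (x + t) : ℂ) * Complex.exp (-(2 * Real.pi * n * x) * Complex.I) =
      Complex.exp ((2 * Real.pi * n * t) * Complex.I) * G (x + t) := by
    intro x
    simp only [hG]
    have : (-(2 * (Real.pi : ℂ) * n * x) * Complex.I) =
      ((2 * Real.pi * n * t) * Complex.I) + (-(2 * Real.pi * n * ((x + t : ℝ) : ℂ)) * Complex.I) := by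
      push_cast; ring
    rw [this, Complex.exp_add]
    ring
  calc ∫ x in (0:ℝ)..1, (s (x + t) : ℂ) * Complex.exp (-(2 * Real.pi * n * x) * Complex.I)
      = ∫ x in (0:ℝ)..1, Complex.exp ((2 * Real.pi * n * t) * Complex.I) * G (x + t) := by
        apply intervalIntegral.integral_congr; intro x _; exact e x
    _ = Complex.exp ((2 * Real.pi * n * t) * Complex.I) * ∫ x in (0:ℝ)..1, G (x + t) := by
        rw [intervalIntegral.integral_const_mul]
    _ = Complex.exp ((2 * Real.pi * n * t) * Complex.I) * ∫ x in (0:ℝ)..1, G x := by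
        congr 1
        rw [intervalIntegral.integral_comp_add_right (fun x => G x) t]
        have := hper.intervalIntegral_add_eq t 0
        rw [zero_add, add_comm 1 t, this, zero_add]

lemma coef_const (z : ℂ) (n : ℤ) : coef (fun _ => z) n = if n = 0 then z else 0 := by
  unfold coef
  rw [intervalIntegral.integral_const_mul]
  split_ifs with h
  · subst h; simp
  · have hc : (-(2 * Real.pi * n) * Complex.I : ℂ) ≠ 0 := by
      have : (Real.pi : ℂ) ≠ 0 := by exact_mod_cast Real.pi_pos.ne'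
      have hn : (n : ℂ) ≠ 0 := by exact_mod_cast h
      simp [this, hn]
    have e : ∀ x : ℝ, Complex.exp (-(2 * Real.pi * n * x) * Complex.I) =
        Complex.exp ((-(2 * Real.pi * n) * Complex.I : ℂ) * x) := by
      intro x; congr 1; ring
    simp_rw [e]
    rw [integral_exp_mul_complex hc]
    have e1 : (-(2 * Real.pi * n) * Complex.I : ℂ) * ((1:ℝ):ℂ) =
      2 * Real.pi * ((-n : ℤ) : ℂ) * Complex.I := by push_cast; ring
    rw [e1, exp_int]
    simp

theorem nrm_one (a : ℤ → ℂ) (ha : SelfAdj 1 a) : ‖a 0‖ + ‖a 1‖ ≤ nrm 1 a := by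
  have h0 : a 0 = star (a 0) := by have := ha 0 (by norm_num); simpa using this
  have h1 : a (-1) = star (a 1) := ha 1 (by norm_num)
  obtain ⟨r, hr⟩ : ∃ r : ℝ, a 0 = r := by
    exact ⟨(a 0).re, (Complex.conj_eq_iff_re.1 h0.symm).symm⟩
  -- unit vector u with u = sgn r * e^{i phi}
  obtain ⟨u, hu1, hu⟩ : ∃ u : ℂ, ‖u‖ = 1 ∧ a 1 = ‖a 1‖ * u := by
    by_cases hz : a 1 = 0
    · exact ⟨1, by simp, by simp [hz]⟩
    · have hne : (‖a 1‖ : ℂ) ≠ 0 := by exact_mod_cast (norm_ne_zero_iff.2 hz)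
      refine ⟨a 1 / ‖a 1‖, ?_, ?_⟩
      · rw [norm_div, Complex.norm_real, norm_norm, div_self (norm_ne_zero_iff.2 hz)]
      · field_simp
  obtain ⟨e, he, her⟩ : ∃ e : ℝ, (e = 1 ∨ e = -1) ∧ r = e * |r| := by
    rcases le_total 0 r with h | h
    · exact ⟨1, Or.inl rfl, by rw [abs_of_nonneg h, one_mul]⟩
    · exact ⟨-1, Or.inr rfl, by rw [abs_of_nonpos h]; ring⟩
  have hee : e * e = 1 := by rcases he with rfl | rfl <;> norm_num
  set T := Matrix.toEuclideanCLM (n := Fin (1+1)) (𝕜 := ℂ) (toep 1 a) with hT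
  let v : EuclideanSpace ℂ (Fin (1+1)) := WithLp.toLp 2 ![1, (e : ℂ) * u]
  have hle := T.le_opNorm v
  have huu : u * star u = 1 := by
    have := Complex.mul_conj u
    rw [Complex.star_def, this, Complex.normSq_eq_norm_sq, hu1]; norm_num
  have hv : ‖v‖ ^ 2 = 2 := by
    rw [EuclideanSpace.norm_sq_eq]
    have s2 := Fin.sum_univ_two (fun i : Fin 2 => ‖v i‖ ^ 2)
    refine s2.trans ?_
    have e0 : v 0 = 1 := rfl
    have e1 : v 1 = (e : ℂ) * u := rfl
    rw [e0, e1, norm_mul, hu1, Complex.norm_real]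
    rcases he with rfl | rfl <;> norm_num
  have hTv : ‖T v‖ ^ 2 = 2 * (‖a 0‖ + ‖a 1‖) ^ 2 := by
    rw [EuclideanSpace.norm_sq_eq]
    have s2 := Fin.sum_univ_two (fun i : Fin 2 => ‖(T v) i‖ ^ 2)
    refine s2.trans ?_
    have m : ∀ i : Fin 2, (T v) i = ∑ j : Fin 2, toep 1 a i j * v j := fun i => rfl
    have ev0 : v 0 = 1 := rfl
    have ev1 : v 1 = (e : ℂ) * u := rfl
    have e0 : (T v) 0 = (e : ℂ) * ((|r| : ℝ) + (‖a 1‖ : ℝ)) := by
      rw [m, Fin.sum_univ_two, ev0, ev1]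
      have t00 : toep 1 a 0 0 = a 0 := by simp [toep]
      have t01 : toep 1 a 0 1 = a (-1) := by simp [toep]
      rw [t00, t01, h1, hr]
      have : star (a 1) * ((e : ℂ) * u) = (e : ℂ) * ‖a 1‖ := by
        conv_lhs => rw [hu]
        rw [star_mul]
        have hs : star (‖a 1‖ : ℂ) = (‖a 1‖ : ℂ) := by
          rw [Complex.star_def, Complex.conj_ofReal]
        rw [hs]
        linear_combination (e : ℂ) * (‖a 1‖ : ℂ) * huu
      rw [this]
      have hr' : (r : ℂ) = (e : ℂ) * ((|r| : ℝ) : ℂ) := by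
        conv_lhs => rw [her]
        push_cast; rfl
      rw [hr']; ring
    have e1 : (T v) 1 = u * ((|r| : ℝ) + (‖a 1‖ : ℝ)) := by
      rw [m, Fin.sum_univ_two, ev0, ev1]
      have t10 : toep 1 a 1 0 = a 1 := by simp [toep]
      have t11 : toep 1 a 1 1 = a 0 := by simp [toep]
      rw [t10, t11, hr]
      have hr' : (r : ℂ) = (e : ℂ) * ((|r| : ℝ) : ℂ) := by
        conv_lhs => rw [her]
        push_cast; rfl
      have hee' : (e : ℂ) * e = 1 := by exact_mod_cast hee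
      rw [hr']
      conv_lhs => rw [hu]
      linear_combination ((|r| : ℝ) : ℂ) * u * hee'
    rw [e0, e1, norm_mul, norm_mul, hu1, Complex.norm_real]
    have hn : ‖(((|r| : ℝ) : ℂ) + ((‖a 1‖ : ℝ) : ℂ))‖ = |r| + ‖a 1‖ := by
      rw [← Complex.ofReal_add, Complex.norm_real, Real.norm_eq_abs, abs_of_nonneg (by positivity)]
    have hr0 : ‖a 0‖ = |r| := by rw [hr, Complex.norm_real, Real.norm_eq_abs]
    rw [hn, hr0]
    have hen : ‖e‖ = 1 := by rcases he with rfl | rfl <;> norm_num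
    rw [hen]; ring
  have hsq : ‖T v‖ ^ 2 ≤ (‖T‖ * ‖v‖) ^ 2 := by gcongr
  rw [mul_pow, hv, hTv] at hsq
  show _ ≤ ‖T‖
  apply le_of_sq_le_sq _ (norm_nonneg _)
  linarith

end CONE1
end Pool.Agent.K6.H60.TZ
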