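import Mathlib
import Pool.Agent.K6.H60.TZ.Stm
import Pool.Agent.K6.H60.TZ.DTWO
import Pool.Agent.K6.H60.TZ.CONE1

open MeasureTheory

namespace Pool.Agent.K6.H60.TZ
namespace CONE2

theorem cone (hS : CONE1.SGN) : c 1 ≤ ENNReal.ofReal (Real.pi / 2) := by
  obtain ⟨s, hsm, hs1, hsp, s0, sp1, sm1⟩ := hS
  unfold c
  refine iSup_le fun a => iSup_le fun ha => iSup_le fun _ => ?_
  have hp := Real.pi_pos
  have hnrm := CONE1.nrm_one a ha
  apply ENNReal.div_le_of_le_mul
  rw [← ENNReal.ofReal_mul (by positivity)]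
  -- the phase
  obtain ⟨φ, hφ⟩ : ∃ φ : ℝ, a 1 = ‖a 1‖ * Complex.exp (φ * Complex.I) :=
    ⟨Complex.arg (a 1), (Complex.norm_mul_exp_arg_mul_I (a 1)).symm⟩
  set t : ℝ := φ / (2 * Real.pi) with ht
  set f : ℝ → ℂ := fun x => a 0 + ((Real.pi / 2 * ‖a 1‖ : ℝ) : ℂ) * (s (x + t) : ℂ) with hf
  have hb : ∀ x, ‖f x‖ ≤ Real.pi / 2 * (‖a 0‖ + ‖a 1‖) := by
    intro x
    simp only [hf]
    refine (norm_add_le _ _).trans ?_
    rw [norm_mul, Complex.norm_real, Complex.norm_real, Real.norm_eq_abs, Real.norm_eq_abs,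
      abs_of_nonneg (by positivity : 0 ≤ Real.pi / 2 * ‖a 1‖)]
    have h1 := mul_le_mul_of_nonneg_left (hs1 (x + t)) (by positivity : 0 ≤ Real.pi / 2 * ‖a 1‖)
    have h2 : ‖a 0‖ ≤ Real.pi / 2 * ‖a 0‖ := by
      have := Real.pi_gt_three
      nlinarith [norm_nonneg (a 0)]
    nlinarith
  have hmeas : Measurable f := by
    have : Measurable fun x : ℝ => (s (x + t) : ℂ) :=
      Complex.measurable_ofReal.comp (hsm.comp (measurable_id.add_const t))
    exact measurable_const.add (this.const_mul _)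
  have hmem : MemLp f ⊤ (volume.restrict (Set.Ioc (0:ℝ) 1)) :=
    memLp_top_of_bound hmeas.aestronglyMeasurable _ (Filter.Eventually.of_forall hb)
  have hsmem : MemLp (fun x => (s (x + t) : ℂ)) ⊤ (volume.restrict (Set.Ioc (0:ℝ) 1)) := by
    have : Measurable fun x : ℝ => (s (x + t) : ℂ) :=
      Complex.measurable_ofReal.comp (hsm.comp (measurable_id.add_const t))
    refine memLp_top_of_bound this.aestronglyMeasurable 1 (Filter.Eventually.of_forall ?_)
    intro x
    rw [Complex.norm_real]; exact hs1 _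
  have hcoef : ∀ n : ℤ, coef f n = (if n = 0 then a 0 else 0) +
      ((Real.pi / 2 * ‖a 1‖ : ℝ) : ℂ) * (Complex.exp ((2 * Real.pi * n * t) * Complex.I) *
        coef (fun x => (s x : ℂ)) n) := by
    intro n
    rw [← CONE1.coef_shift s hsp t n, ← CONE1.coef_const (a 0) n]
    unfold coef
    rw [← intervalIntegral.integral_const_mul]
    have i1 : IntervalIntegrable (fun x : ℝ => a 0 * Complex.exp (-(2 * Real.pi * n * x) * Complex.I))
        volume 0 1 := by
      apply Continuous.intervalIntegrable; fun_prop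
    have i2 : IntervalIntegrable (fun x : ℝ => ((Real.pi / 2 * ‖a 1‖ : ℝ) : ℂ) * ((s (x + t) : ℂ) *
        Complex.exp (-(2 * Real.pi * n * x) * Complex.I))) volume 0 1 :=
      ((DTWO.memLp_intervalIntegrable hsmem).mul_continuousOn (by fun_prop)).const_mul _
    rw [← intervalIntegral.integral_add i1 i2]
    apply intervalIntegral.integral_congr
    intro x _
    simp only [hf]
    ring
  have hpc : (Real.pi : ℂ) ≠ 0 := by exact_mod_cast hp.ne'
  have hext : Ext 1 a f := by
    refine ⟨hmem, ?_⟩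
    intro n hn
    have : n = -1 ∨ n = 0 ∨ n = 1 := by
      rw [abs_le] at hn; push_cast at hn; omega
    have et : (2 * (Real.pi : ℂ) * t) = φ := by
      rw [ht]; push_cast; field_simp
    rcases this with rfl | rfl | rfl
    · rw [hcoef, sm1, ha 1 (by norm_num)]
      have e1 : (2 * (Real.pi : ℂ) * ((-1 : ℤ) : ℂ) * t * Complex.I) = -(φ * Complex.I) := by
        rw [← et]; push_cast; ring
      rw [e1]
      have hst : star (a 1) = ‖a 1‖ * Complex.exp (-(φ * Complex.I)) := by
        conv_lhs => rw [hφ]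
        rw [Complex.star_def, map_mul, Complex.conj_ofReal, ← Complex.exp_conj, map_mul,
          Complex.conj_ofReal, Complex.conj_I]
        congr 2; ring
      rw [hst]
      push_cast
      field_simp
      simp
    · rw [hcoef, s0]; simp
    · rw [hcoef, sp1]
      have e1 : (2 * (Real.pi : ℂ) * ((1 : ℤ) : ℂ) * t * Complex.I) = (φ * Complex.I) := by
        rw [← et]; push_cast; ring
      rw [e1]
      conv_rhs => rw [hφ]
      push_cast
      field_simp
      simp
  have hsup : sup f ≤ ENNReal.ofReal (Real.pi / 2 * nrm 1 a) := by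
    have h1 : sup f ≤ ENNReal.ofReal (Real.pi / 2 * (‖a 0‖ + ‖a 1‖)) := by
      unfold sup
      rw [eLpNorm_exponent_top]
      apply eLpNormEssSup_le_of_ae_bound
      exact Filter.Eventually.of_forall hb
    refine h1.trans (ENNReal.ofReal_le_ofReal ?_)
    exact mul_le_mul_of_nonneg_left hnrm (by positivity)
  exact (iInf₂_le (f := fun (f : ℝ → ℂ) (_ : Ext 1 a f) => sup f) f hext).trans hsup

end CONE2
end Pool.Agent.K6.H60.TZ
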