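import Mathlib
import Pool.Agent.K6.H60.TZ.Stm
import Pool.Agent.K6.H60.TZ.DTWO

open MeasureTheory

namespace Pool.Agent.K6.H60.TZ
namespace DTHREE

theorem dual (hL : S_LONE) : S_DUAL := by
  intro f hf
  have hm := hf.1
  have hi := DTWO.memLp_intervalIntegrable hm
  have h := DTWO.dual_gen hm
    (fun x => (-3/16) * Real.cos (2 * Real.pi * x) + (1/4) * Real.cos (6 * Real.pi * x)) (by fun_prop)
  have c1 := DTWO.coef_cos hm 1
  have c3 := DTWO.coef_cos hm 3
  have v1 : coef f 1 = -1/2 := by rw [hf.2 1 (by norm_num)]; simp [a3]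
  have v1' : coef f (-1) = -1/2 := by rw [hf.2 (-1) (by norm_num)]; simp [a3]
  have v3 : coef f 3 = 19/24 := by rw [hf.2 3 (by norm_num)]; simp [a3]
  have v3' : coef f (-3) = 19/24 := by rw [hf.2 (-3) (by norm_num)]; simp [a3]
  rw [v1, v1'] at c1
  rw [v3, v3'] at c3
  have hint : ∫ x in (0:ℝ)..1, f x * (((-3/16) * Real.cos (2 * Real.pi * x) +
      (1/4) * Real.cos (6 * Real.pi * x) : ℝ) : ℂ) = 7/24 := by
    have i1 : IntervalIntegrable (fun x : ℝ => f x * (Real.cos (2 * Real.pi * (1:ℤ) * x) : ℂ)) volume 0 1 :=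
      hi.mul_continuousOn (by fun_prop)
    have i3 : IntervalIntegrable (fun x : ℝ => f x * (Real.cos (2 * Real.pi * (3:ℤ) * x) : ℂ)) volume 0 1 :=
      hi.mul_continuousOn (by fun_prop)
    have : ∫ x in (0:ℝ)..1, f x * (((-3/16) * Real.cos (2 * Real.pi * x) +
      (1/4) * Real.cos (6 * Real.pi * x) : ℝ) : ℂ) =
        (-3/16 : ℂ) * (∫ x in (0:ℝ)..1, f x * (Real.cos (2 * Real.pi * (1:ℤ) * x) : ℂ)) +
        (1/4 : ℂ) * ∫ x in (0:ℝ)..1, f x * (Real.cos (2 * Real.pi * (3:ℤ) * x) : ℂ) := by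
      rw [← intervalIntegral.integral_const_mul, ← intervalIntegral.integral_const_mul,
        ← intervalIntegral.integral_add (i1.const_mul _) (i3.const_mul _)]
      apply intervalIntegral.integral_congr
      intro x _
      simp only
      have e1 : 2 * Real.pi * ((1:ℤ):ℝ) * x = 2 * Real.pi * x := by push_cast; ring
      have e3 : 2 * Real.pi * ((3:ℤ):ℝ) * x = 6 * Real.pi * x := by push_cast; ring
      rw [e1, e3]
      push_cast
      ring
    rw [this, c1, c3]; norm_num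
  rw [hint] at h
  have hn : ‖(7/24 : ℂ)‖ = 7/24 := by
    have : (7/24 : ℂ) = ((7/24 : ℝ) : ℂ) := by push_cast; rfl
    rw [this, Complex.norm_real]; norm_num
  rw [hn] at h
  have hp := Real.pi_pos
  have h2 : 7/24 ≤ (sup f).toReal * ((2 / Real.pi) * (7/24)) :=
    h.trans (mul_le_mul_of_nonneg_left hL ENNReal.toReal_nonneg)
  apply ENNReal.ofReal_le_of_le_toReal
  have h3 : 1 ≤ (sup f).toReal * (2 / Real.pi) := by nlinarith
  have h4 : (sup f).toReal * (2 / Real.pi) = (sup f).toReal * 2 / Real.pi := by ring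
  rw [h4, le_div_iff₀ hp] at h3
  linarith

end DTHREE
end Pool.Agent.K6.H60.TZ
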