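import Pool.Agent.K6.H60.TZ.Stm

/-! Piece DUAL (helper41). -/

set_option autoImplicit false

open MeasureTheory

namespace Pool.Agent.K6.H60.TZ

namespace DUAL

noncomputable def pp (x : ℝ) : ℝ :=
  (-3/16) * Real.cos (2 * Real.pi * x) + (1/4) * Real.cos (6 * Real.pi * x)

noncomputable def ee (n : ℤ) (x : ℝ) : ℂ := Complex.exp (-(2 * Real.pi * n * x) * Complex.I)

theorem ee_cont (n : ℤ) : Continuous (ee n) := by
  unfold ee
  fun_prop

theorem ee_norm (n : ℤ) (x : ℝ) : ‖ee n x‖ = 1 := by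
  unfold ee
  have : (-(2 * Real.pi * n * x) * Complex.I : ℂ) = ((-(2 * Real.pi * n * x) : ℝ) : ℂ) * Complex.I := by
    push_cast
    ring
  rw [this, Complex.norm_exp_ofReal_mul_I]

theorem pp_eq (x : ℝ) : (pp x : ℂ) = (-3/32) * (ee 1 x + ee (-1) x) + (1/8) * (ee 3 x + ee (-3) x) := by
  unfold pp ee
  push_cast
  rw [Complex.cos, Complex.cos]
  have e1 : (2 * (Real.pi : ℂ) * x * Complex.I) = (-(2 * (Real.pi : ℂ) * (-1) * x) * Complex.I) := by ring
  have e2 : (-(2 * (Real.pi : ℂ) * x) * Complex.I) = (-(2 * (Real.pi : ℂ) * 1 * x) * Complex.I) := by ring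
  have e3 : (6 * (Real.pi : ℂ) * x * Complex.I) = (-(2 * (Real.pi : ℂ) * (-3) * x) * Complex.I) := by ring
  have e4 : (-(6 * (Real.pi : ℂ) * x) * Complex.I) = (-(2 * (Real.pi : ℂ) * 3 * x) * Complex.I) := by ring
  rw [e1, e2, e3, e4]
  ring

end DUAL

open DUAL in
theorem t_DUAL (h : S_LONE) : S_DUAL := by
  intro f hf
  obtain ⟨hmem, hcoef⟩ := hf
  set μ : Measure ℝ := volume.restrict (Set.Ioc (0:ℝ) 1) with hμ
  have hint : Integrable f μ := hmem.integrable le_top
  have hie : ∀ n : ℤ, Integrable (fun x => f x * ee n x) μ := by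
    intro n
    have h1 : MemLp (fun x => f x * ee n x) ⊤ μ := by
      have h2 : MemLp (ee n) ⊤ μ := by
        refine memLp_top_of_bound (ee_cont n).aestronglyMeasurable 1 ?_
        exact Filter.Eventually.of_forall fun x => (ee_norm n x).le
      exact h2.mul hmem (p := ⊤) (q := ⊤) (r := ⊤)
    exact h1.integrable le_top
  have hc : ∀ n : ℤ, ∫ x, f x * ee n x ∂μ = coef f n := by
    intro n
    unfold coef
    rw [intervalIntegral.integral_of_le zero_le_one]
    rfl
  have h1 : ∫ x, f x * (pp x : ℂ) ∂μ = 7 / 24 := by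
    have e : ∀ x, f x * (pp x : ℂ) = ((-3/32 : ℂ) * (f x * ee 1 x) + (-3/32 : ℂ) * (f x * ee (-1) x)) +
        ((1/8 : ℂ) * (f x * ee 3 x) + (1/8 : ℂ) * (f x * ee (-3) x)) := by
      intro x
      rw [pp_eq]
      ring
    simp_rw [e]
    have i1 : Integrable (fun x => (-3/32 : ℂ) * (f x * ee 1 x) + (-3/32 : ℂ) * (f x * ee (-1) x)) μ :=
      ((hie 1).const_mul _).add ((hie (-1)).const_mul _)
    have i2 : Integrable (fun x => (1/8 : ℂ) * (f x * ee 3 x) + (1/8 : ℂ) * (f x * ee (-3) x)) μ :=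
      ((hie 3).const_mul _).add ((hie (-3)).const_mul _)
    rw [integral_add i1 i2,
      integral_add ((hie 1).const_mul _) ((hie (-1)).const_mul _),
      integral_add ((hie 3).const_mul _) ((hie (-3)).const_mul _),
      integral_const_mul, integral_const_mul, integral_const_mul, integral_const_mul,
      hc, hc, hc, hc, hcoef 1 (by simp), hcoef (-1) (by simp), hcoef 3 (by simp),
      hcoef (-3) (by simp)]
    have a1 : a3 1 = -1/2 := by simp [a3]
    have a2 : a3 (-1) = -1/2 := by simp [a3]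
    have a4 : a3 3 = 19/24 := by
      unfold a3
      rw [if_neg (by norm_num), if_pos (by norm_num)]
    have a5 : a3 (-3) = 19/24 := by
      unfold a3
      rw [if_neg (by norm_num), if_pos (by norm_num)]
    rw [a1, a2, a4, a5]
    norm_num
  have hfin : sup f ≠ ⊤ := hmem.2.ne
  set S : ℝ := (sup f).toReal with hS
  have hS0 : 0 ≤ S := ENNReal.toReal_nonneg
  have hae : ∀ᵐ x ∂μ, ‖f x‖ ≤ S := by
    have h2 : ∀ᵐ x ∂μ, ‖f x‖ₑ ≤ eLpNormEssSup f μ := ae_le_eLpNormEssSup
    filter_upwards [h2] with x hx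
    have h3 : sup f = eLpNormEssSup f μ := by
      unfold sup
      rw [eLpNorm_exponent_top]
    rw [← h3] at hx
    have h4 := ENNReal.toReal_mono hfin hx
    rwa [toReal_enorm] at h4
  have hpc : Continuous pp := by
    unfold pp
    fun_prop
  have hpi : Integrable (fun x => |pp x|) μ := by
    have : IntegrableOn (fun x => |pp x|) (Set.Icc (0:ℝ) 1) volume :=
      hpc.abs.continuousOn.integrableOn_compact isCompact_Icc
    exact this.mono_set Set.Ioc_subset_Icc_self
  have h5 : (7 / 24 : ℝ) ≤ S * ∫ x, |pp x| ∂μ := by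
    calc (7 / 24 : ℝ) = ‖(7 / 24 : ℂ)‖ := by norm_num
      _ = ‖∫ x, f x * (pp x : ℂ) ∂μ‖ := by rw [h1]
      _ ≤ ∫ x, S * |pp x| ∂μ := by
        apply norm_integral_le_of_norm_le (hpi.const_mul S)
        filter_upwards [hae] with x hx
        rw [norm_mul, Complex.norm_real, Real.norm_eq_abs]
        exact mul_le_mul_of_nonneg_right hx (abs_nonneg _)
      _ = S * ∫ x, |pp x| ∂μ := integral_const_mul _ _
  have h6 : ∫ x, |pp x| ∂μ ≤ (2 / Real.pi) * (7/24) := by
    have := h
    unfold S_LONE at this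
    rw [intervalIntegral.integral_of_le zero_le_one] at this
    exact this
  have h7 : (7 / 24 : ℝ) ≤ S * ((2 / Real.pi) * (7/24)) :=
    h5.trans (mul_le_mul_of_nonneg_left h6 hS0)
  have hpi0 := Real.pi_pos
  have h8 : Real.pi / 2 ≤ S := by
    have h9 : S * ((2 / Real.pi) * (7/24)) = (S * 2 / Real.pi) * (7 / 24) := by ring
    rw [h9] at h7
    have h10 : 1 ≤ S * 2 / Real.pi := by linarith
    rw [le_div_iff₀ hpi0] at h10
    linarith
  rw [ENNReal.ofReal_le_iff_le_toReal hfin]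
  exact h8

end Pool.Agent.K6.H60.TZ
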