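import Pool.Agent.K6.H60.TZ.Stm

open MeasureTheory

namespace Pool.Agent.K6.H60.TZ

namespace LONE

noncomputable def g (u : ℝ) : ℝ := |1/16 - u^2|

lemma g_cont : Continuous g := by unfold g; fun_prop

lemma g_int01 : ∫ u in (0:ℝ)..1, g u = 7/24 := by
  rw [← intervalIntegral.integral_add_adjacent_intervals (b := (1/4:ℝ))
    (g_cont.intervalIntegrable _ _) (g_cont.intervalIntegrable _ _)]
  have h1 : ∫ u in (0:ℝ)..(1/4), g u = ∫ u in (0:ℝ)..(1/4), (1/16 - u^2) := by
    apply intervalIntegral.integral_congr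
    intro u hu
    rw [Set.uIcc_of_le (by norm_num)] at hu
    have : (0:ℝ) ≤ 1/16 - u^2 := by nlinarith [hu.1, hu.2]
    simp only [g]
    exact abs_of_nonneg this
  have h2 : ∫ u in (1/4:ℝ)..1, g u = ∫ u in (1/4:ℝ)..1, (u^2 - 1/16) := by
    apply intervalIntegral.integral_congr
    intro u hu
    rw [Set.uIcc_of_le (by norm_num)] at hu
    have : 1/16 - u^2 ≤ (0:ℝ) := by nlinarith [hu.1, hu.2]
    simp only [g]
    rw [abs_of_nonpos this]; ring
  rw [h1, h2]
  rw [intervalIntegral.integral_sub (by simp) (by apply Continuous.intervalIntegrable; fun_prop),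
    intervalIntegral.integral_sub (by apply Continuous.intervalIntegrable; fun_prop) (by simp)]
  simp only [intervalIntegral.integral_const, integral_pow]
  norm_num

lemma g_int10 : ∫ u in (-1:ℝ)..0, g u = 7/24 := by
  have h := intervalIntegral.integral_comp_neg (f := g) (a := (0:ℝ)) (b := 1)
  have h2 : ∫ u in (0:ℝ)..1, g (-u) = ∫ u in (0:ℝ)..1, g u := by
    apply intervalIntegral.integral_congr
    intro u _
    simp [g]
  rw [h2, g_int01] at h
  rw [h]; simp

lemma key (α β : ℝ) : ∫ x in α..β, g (Real.sin (2*Real.pi*x)) * (2*Real.pi*Real.cos (2*Real.pi*x))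
    = ∫ u in Real.sin (2*Real.pi*α)..Real.sin (2*Real.pi*β), g u := by
  have h := intervalIntegral.integral_comp_mul_deriv (a := α) (b := β)
    (f := fun x => Real.sin (2*Real.pi*x)) (f' := fun x => 2*Real.pi*Real.cos (2*Real.pi*x)) (g := g)
    (fun x _ => by
      have h1 : HasDerivAt (fun x : ℝ => 2*Real.pi*x) (2*Real.pi*1) x :=
        (hasDerivAt_id x).const_mul (2*Real.pi)
      have h2 := h1.sin
      have e : 2*Real.pi*Real.cos (2*Real.pi*x) = Real.cos (2*Real.pi*x) * (2*Real.pi*1) := by ring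
      rw [e]; exact h2)
    (by apply Continuous.continuousOn; fun_prop) g_cont
  simpa [Function.comp] using h

lemma integrand (x : ℝ) :
    |(-3/16) * Real.cos (2 * Real.pi * x) + (1/4) * Real.cos (6 * Real.pi * x)|
      = |Real.cos (2*Real.pi*x)| * g (Real.sin (2*Real.pi*x)) := by
  have h3 : Real.cos (6*Real.pi*x) = 4 * Real.cos (2*Real.pi*x)^3 - 3 * Real.cos (2*Real.pi*x) := by
    rw [← Real.cos_three_mul]; ring_nf
  rw [h3, g, ← abs_mul]
  have hs : Real.sin (2*Real.pi*x)^2 = 1 - Real.cos (2*Real.pi*x)^2 := Real.sin_sq _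
  rw [hs]
  congr 1
  ring

end LONE

open LONE in
theorem t_LONE : S_LONE := by
  unfold S_LONE
  have hpi := Real.pi_pos
  have e0 : ∫ x in (0:ℝ)..1, |(-3/16) * Real.cos (2 * Real.pi * x) + (1/4) * Real.cos (6 * Real.pi * x)|
      = ∫ x in (0:ℝ)..1, |Real.cos (2*Real.pi*x)| * g (Real.sin (2*Real.pi*x)) := by
    apply intervalIntegral.integral_congr
    intro x _
    exact integrand x
  rw [e0]
  have hc : Continuous (fun x : ℝ => |Real.cos (2*Real.pi*x)| * g (Real.sin (2*Real.pi*x))) := by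
    have := g_cont
    fun_prop
  rw [← intervalIntegral.integral_add_adjacent_intervals (b := (1/4:ℝ))
    (hc.intervalIntegrable _ _) (hc.intervalIntegrable _ _),
    ← intervalIntegral.integral_add_adjacent_intervals (a := (1/4:ℝ)) (b := (3/4:ℝ)) (c := 1)
    (hc.intervalIntegrable _ _) (hc.intervalIntegrable _ _)]
  have p1 : ∫ x in (0:ℝ)..(1/4), |Real.cos (2*Real.pi*x)| * g (Real.sin (2*Real.pi*x))
      = (1/(2*Real.pi)) * ∫ x in (0:ℝ)..(1/4),
        g (Real.sin (2*Real.pi*x)) * (2*Real.pi*Real.cos (2*Real.pi*x)) := by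
    rw [← intervalIntegral.integral_const_mul]
    apply intervalIntegral.integral_congr
    intro x hx
    rw [Set.uIcc_of_le (by norm_num)] at hx
    have hcos : 0 ≤ Real.cos (2*Real.pi*x) := by
      apply Real.cos_nonneg_of_neg_pi_div_two_le_of_le
      · nlinarith [hx.1, hx.2]
      · nlinarith [hx.1, hx.2]
    simp only []
    rw [abs_of_nonneg hcos]
    field_simp
  have p2 : ∫ x in (1/4:ℝ)..(3/4), |Real.cos (2*Real.pi*x)| * g (Real.sin (2*Real.pi*x))
      = (-(1/(2*Real.pi))) * ∫ x in (1/4:ℝ)..(3/4),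
        g (Real.sin (2*Real.pi*x)) * (2*Real.pi*Real.cos (2*Real.pi*x)) := by
    rw [← intervalIntegral.integral_const_mul]
    apply intervalIntegral.integral_congr
    intro x hx
    rw [Set.uIcc_of_le (by norm_num)] at hx
    have hcos : Real.cos (2*Real.pi*x) ≤ 0 := by
      apply Real.cos_nonpos_of_pi_div_two_le_of_le
      · nlinarith [hx.1, hx.2]
      · nlinarith [hx.1, hx.2]
    simp only []
    rw [abs_of_nonpos hcos]
    field_simp
  have p3 : ∫ x in (3/4:ℝ)..1, |Real.cos (2*Real.pi*x)| * g (Real.sin (2*Real.pi*x))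
      = (1/(2*Real.pi)) * ∫ x in (3/4:ℝ)..1,
        g (Real.sin (2*Real.pi*x)) * (2*Real.pi*Real.cos (2*Real.pi*x)) := by
    rw [← intervalIntegral.integral_const_mul]
    apply intervalIntegral.integral_congr
    intro x hx
    rw [Set.uIcc_of_le (by norm_num)] at hx
    have hcos : 0 ≤ Real.cos (2*Real.pi*x) := by
      rw [← Real.cos_sub_two_pi]
      apply Real.cos_nonneg_of_neg_pi_div_two_le_of_le
      · nlinarith [hx.1, hx.2]
      · nlinarith [hx.1, hx.2]
    simp only []
    rw [abs_of_nonneg hcos]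
    field_simp
  rw [p1, p2, p3, key, key, key]
  have s0 : Real.sin (2*Real.pi*0) = 0 := by simp
  have s1 : Real.sin (2*Real.pi*(1/4)) = 1 := by
    rw [show 2*Real.pi*(1/4) = Real.pi/2 by ring]; exact Real.sin_pi_div_two
  have s2 : Real.sin (2*Real.pi*(3/4)) = -1 := by
    rw [show 2*Real.pi*(3/4) = Real.pi/2 + Real.pi by ring, Real.sin_add_pi, Real.sin_pi_div_two]
  have s3 : Real.sin (2*Real.pi*1) = 0 := by simp
  rw [s0, s1, s2, s3, g_int01, g_int10]
  have hm : ∫ u in (1:ℝ)..(-1), g u = -(14/24) := by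
    rw [intervalIntegral.integral_symm,
      ← intervalIntegral.integral_add_adjacent_intervals (b := (0:ℝ))
      (g_cont.intervalIntegrable _ _) (g_cont.intervalIntegrable _ _), g_int01, g_int10]
    norm_num
  rw [hm]
  apply le_of_eq
  field_simp
  norm_num

end Pool.Agent.K6.H60.TZ
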