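import Pool.Agent.K6.H60.TZ.Stm

/-!
# Piece NORM: the dilated Toeplitz matrix
-/

set_option autoImplicit false

open Finset

namespace Pool.Agent.K6.H60.TZ

namespace NORM

lemma blocks {β : Type*} [AddCommMonoid β] (k : ℕ) (G : ℕ → β) (N : ℕ) :
    ∑ n ∈ range (k * N), G n = ∑ r ∈ range k, ∑ j ∈ range N, G (r + k * j) := by
  induction N with
  | zero => simp
  | succ N ih =>
    rw [Nat.mul_succ, sum_range_add, ih]
    simp only [sum_range_succ, sum_add_distrib]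
    congr 1
    exact sum_congr rfl fun r _ => by rw [add_comm]

lemma ext0 {β : Type*} [AddCommMonoid β] {M K : ℕ} (h : M ≤ K) (f : Fin M → β) (G : ℕ → β)
    (h1 : ∀ i : Fin M, G i = f i) (h2 : ∀ n, M ≤ n → G n = 0) :
    ∑ i, f i = ∑ n ∈ range K, G n := by
  rw [← sum_subset (range_subset_range.2 h) (fun n _ hn => h2 n (by simpa using hn)), sum_range]
  exact sum_congr rfl fun i _ => (h1 i).symm

lemma toep_apply (N : ℕ) (a : ℤ → ℂ) (x : EuclideanSpace ℂ (Fin (N + 1))) (i : Fin (N + 1)) :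
    (Matrix.toEuclideanCLM (n := Fin (N + 1)) (𝕜 := ℂ) (toep N a) x) i =
      ∑ j : Fin (N + 1), a ((i : ℤ) - (j : ℤ)) * x j := by
  rw [Matrix.ofLp_toEuclideanCLM]
  rfl

end NORM

open NORM in
theorem t_NORM : S_NORM := by
  intro N k M a hk h1 h2
  have hk0 : 0 < k := hk
  unfold nrm
  refine ContinuousLinearMap.opNorm_le_bound _ (norm_nonneg _) fun x => ?_
  obtain ⟨A, hA⟩ : ∃ A, A = Matrix.toEuclideanCLM (n := Fin (N + 1)) (𝕜 := ℂ) (toep N a) :=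
    ⟨_, rfl⟩
  rw [← hA]
  -- the vector extended by zero
  obtain ⟨F, hF⟩ : ∃ F : ℕ → ℂ, F = fun n => if h : n < M + 1 then x ⟨n, h⟩ else 0 := ⟨_, rfl⟩
  have hF1 : ∀ i : Fin (M + 1), F i = x i := by
    intro i
    rw [hF]
    exact dif_pos i.2
  have hF2 : ∀ n, M + 1 ≤ n → F n = 0 := by
    intro n hn
    rw [hF]
    simp [not_lt.2 hn]
  obtain ⟨P, hP⟩ : ∃ P : ℕ → ℕ → ℂ, ∀ r i, P r i =
    ∑ j ∈ range (N + 1), a ((i : ℤ) - (j : ℤ)) * F (r + k * j) := ⟨_, fun _ _ => rfl⟩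
  have hB : ∀ i : Fin (M + 1),
      (Matrix.toEuclideanCLM (n := Fin (M + 1)) (𝕜 := ℂ) (toep M (dil k a)) x) i =
        P (i % k) (i / k) := by
    intro i
    rw [toep_apply, ext0 h2 _ (fun n => dil k a ((i : ℤ) - (n : ℤ)) * F n)
      (fun j => by rw [hF1]) (fun n hn => by rw [hF2 n hn, mul_zero]), blocks, hP,
      Finset.sum_eq_single (i % k : ℕ)]
    · refine sum_congr rfl fun j _ => ?_
      congr 1
      have h3 : ((i : ℕ) : ℤ) - ((i % k + k * j : ℕ) : ℤ) = k * (((i / k : ℕ) : ℤ) - j) := by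
        have h4 : ((i : ℕ) : ℤ) = ((i % k : ℕ) : ℤ) + k * ((i / k : ℕ) : ℤ) := by
          exact_mod_cast (Nat.mod_add_div (i : ℕ) k).symm
        rw [h4]
        push_cast
        ring
      rw [h3, dil, if_pos (Dvd.intro _ rfl), Int.mul_ediv_cancel_left _ (by exact_mod_cast hk0.ne')]
    · intro r hr hne
      refine sum_eq_zero fun j _ => ?_
      have h3 : ¬ (k : ℤ) ∣ ((i : ℕ) : ℤ) - ((r + k * j : ℕ) : ℤ) := by
        intro h4
        apply hne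
        have h5 : r + k * j ≡ i [MOD k] := (Nat.modEq_iff_dvd).2 h4
        have h6 : (r + k * j) % k = i % k := h5
        rw [Nat.add_mul_mod_self_left, Nat.mod_eq_of_lt (mem_range.1 hr)] at h6
        exact h6
      rw [dil, if_neg h3, zero_mul]
    · intro h3
      exact absurd (mem_range.2 (Nat.mod_lt _ hk0)) h3
  -- the pieces
  obtain ⟨X, hX⟩ : ∃ X : ℕ → EuclideanSpace ℂ (Fin (N + 1)), ∀ r (j : Fin (N + 1)),
    X r j = F (r + k * j) := ⟨fun r => WithLp.toLp 2 fun j => F (r + k * j), fun _ _ => rfl⟩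
  have hAX : ∀ r (i : Fin (N + 1)), (A (X r)) i = P r i := by
    intro r i
    rw [hA, toep_apply, hP, sum_range]
    exact sum_congr rfl fun j _ => by rw [hX]
  have hbound : ∀ r, ∑ i ∈ range (N + 1), ‖P r i‖ ^ 2 ≤
      ‖A‖ ^ 2 * ∑ j ∈ range (N + 1), ‖F (r + k * j)‖ ^ 2 := by
    intro r
    have h3 : ‖A (X r)‖ ^ 2 ≤ (‖A‖ * ‖X r‖) ^ 2 :=
      pow_le_pow_left₀ (norm_nonneg _) (A.le_opNorm _) 2
    rw [mul_pow, EuclideanSpace.norm_sq_eq, EuclideanSpace.norm_sq_eq] at h3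
    rw [sum_range, sum_range]
    simpa only [hAX, hX] using h3
  have hsq : ‖Matrix.toEuclideanCLM (n := Fin (M + 1)) (𝕜 := ℂ) (toep M (dil k a)) x‖ ^ 2 ≤
      (‖A‖ * ‖x‖) ^ 2 := by
    rw [mul_pow, EuclideanSpace.norm_sq_eq, EuclideanSpace.norm_sq_eq]
    calc ∑ i, ‖(Matrix.toEuclideanCLM (n := Fin (M + 1)) (𝕜 := ℂ) (toep M (dil k a)) x) i‖ ^ 2
        = ∑ i : Fin (M + 1), ‖P ((i : ℕ) % k) ((i : ℕ) / k)‖ ^ 2 :=
          sum_congr rfl fun i _ => by rw [hB]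
      _ = ∑ n ∈ range (M + 1), ‖P (n % k) (n / k)‖ ^ 2 := by
          rw [sum_range]
      _ ≤ ∑ n ∈ range (k * (N + 1)), ‖P (n % k) (n / k)‖ ^ 2 :=
          sum_le_sum_of_subset_of_nonneg (range_subset_range.2 h2) fun _ _ _ => by positivity
      _ = ∑ r ∈ range k, ∑ i ∈ range (N + 1), ‖P r i‖ ^ 2 := by
          rw [blocks]
          refine sum_congr rfl fun r hr => sum_congr rfl fun i _ => ?_
          rw [Nat.add_mul_mod_self_left, Nat.mod_eq_of_lt (mem_range.1 hr),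
            Nat.add_mul_div_left _ _ hk0, Nat.div_eq_of_lt (mem_range.1 hr), zero_add]
      _ ≤ ∑ r ∈ range k, ‖A‖ ^ 2 * ∑ j ∈ range (N + 1), ‖F (r + k * j)‖ ^ 2 :=
          sum_le_sum fun r _ => hbound r
      _ = ‖A‖ ^ 2 * ∑ n ∈ range (k * (N + 1)), ‖F n‖ ^ 2 := by
          rw [blocks, mul_sum]
      _ = ‖A‖ ^ 2 * ∑ i, ‖x i‖ ^ 2 := by
          rw [ext0 h2 (fun i => ‖x i‖ ^ 2) (fun n => ‖F n‖ ^ 2) (fun i => by rw [hF1])
            (fun n hn => by rw [hF2 n hn]; simp)]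
  exact le_of_sq_le_sq hsq (by positivity)

end Pool.Agent.K6.H60.TZ
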