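import Pool.Agent.K6.H60.TZ.Stm

/-! Piece NTHREE (helper4): the norm of the `4 × 4` matrix. -/

set_option autoImplicit false

open MeasureTheory

namespace Pool.Agent.K6.H60.TZ

namespace NTHREE

theorem real_pair (u v : ℝ) : (-(1 / 2) * u + 19 / 24 * v) ^ 2 + (-(1 / 2) * u + -(1 / 2) * v) ^ 2 ≤
    (97 / 100) ^ 2 * (u ^ 2 + v ^ 2) := by
  nlinarith [sq_nonneg (u + 33 / 100 * v), sq_nonneg v]

theorem nsq (z w : ℂ) (a b : ℝ) : ‖(a : ℂ) * z + (b : ℂ) * w‖ ^ 2 =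
    (a * z.re + b * w.re) ^ 2 + (a * z.im + b * w.im) ^ 2 := by
  rw [Complex.sq_norm, Complex.normSq_apply]
  simp
  ring

theorem pair (z w : ℂ) : ‖((-(1 / 2) : ℝ) : ℂ) * z + ((19 / 24 : ℝ) : ℂ) * w‖ ^ 2 +
    ‖((-(1 / 2) : ℝ) : ℂ) * z + ((-(1 / 2) : ℝ) : ℂ) * w‖ ^ 2 ≤
    (97 / 100) ^ 2 * (‖z‖ ^ 2 + ‖w‖ ^ 2) := by
  have h1 := real_pair z.re w.re
  have h2 := real_pair z.im w.im
  have h3 : ‖z‖ ^ 2 = z.re ^ 2 + z.im ^ 2 := by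
    rw [Complex.sq_norm, Complex.normSq_apply]; ring
  have h4 : ‖w‖ ^ 2 = w.re ^ 2 + w.im ^ 2 := by
    rw [Complex.sq_norm, Complex.normSq_apply]; ring
  rw [nsq, nsq, h3, h4]
  linarith

theorem m0 (x : Fin 4 → ℂ) : (toep 3 a3).mulVec x 0 =
    ((-(1 / 2) : ℝ) : ℂ) * x 1 + ((19 / 24 : ℝ) : ℂ) * x 3 := by
  simp only [Matrix.mulVec, dotProduct, toep, Matrix.of_apply]
  rw [Fin.sum_univ_four]
  norm_num [a3]

theorem m1 (x : Fin 4 → ℂ) : (toep 3 a3).mulVec x 1 =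
    ((-(1 / 2) : ℝ) : ℂ) * x 2 + ((-(1 / 2) : ℝ) : ℂ) * x 0 := by
  simp only [Matrix.mulVec, dotProduct, toep, Matrix.of_apply]
  rw [Fin.sum_univ_four]
  norm_num [a3]
  ring

theorem m2 (x : Fin 4 → ℂ) : (toep 3 a3).mulVec x 2 =
    ((-(1 / 2) : ℝ) : ℂ) * x 1 + ((-(1 / 2) : ℝ) : ℂ) * x 3 := by
  simp only [Matrix.mulVec, dotProduct, toep, Matrix.of_apply]
  rw [Fin.sum_univ_four]
  norm_num [a3]

theorem m3 (x : Fin 4 → ℂ) : (toep 3 a3).mulVec x 3 =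
    ((-(1 / 2) : ℝ) : ℂ) * x 2 + ((19 / 24 : ℝ) : ℂ) * x 0 := by
  simp only [Matrix.mulVec, dotProduct, toep, Matrix.of_apply]
  rw [Fin.sum_univ_four]
  norm_num [a3]
  ring

end NTHREE

theorem t_NTHREE : S_NTHREE := by
  unfold S_NTHREE nrm
  refine ContinuousLinearMap.opNorm_le_bound _ (by norm_num) fun x => ?_
  have h1 : ‖Matrix.toEuclideanCLM (n := Fin 4) (𝕜 := ℂ) (toep 3 a3) x‖ ^ 2 ≤
      (97 / 100 * ‖x‖) ^ 2 := by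
    rw [mul_pow, EuclideanSpace.norm_sq_eq, EuclideanSpace.norm_sq_eq, Matrix.ofLp_toEuclideanCLM,
      Fin.sum_univ_four, Fin.sum_univ_four, NTHREE.m0, NTHREE.m1, NTHREE.m2, NTHREE.m3]
    have h1 := NTHREE.pair (x.ofLp 1) (x.ofLp 3)
    have h2 := NTHREE.pair (x.ofLp 2) (x.ofLp 0)
    linarith
  exact (pow_le_pow_iff_left₀ (norm_nonneg _) (by positivity) two_ne_zero).1 h1

end Pool.Agent.K6.H60.TZ
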