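import Mathlib
import Pool.Agent.K6.H60.TZ.Stm
import Pool.Agent.K6.H60.TZ.DTWO
import Pool.Agent.K6.H60.TZ.CONE1

open MeasureTheory

namespace Pool.Agent.K6.H60.TZ
namespace SGN60

open Classical in
noncomputable def s (x : ℝ) : ℝ := if 0 ≤ Real.cos (2 * Real.pi * x) then 1 else -1

lemma s_meas : Measurable s := by
  unfold s
  apply Measurable.ite
  · exact measurableSet_le measurable_const (by fun_prop)
  · exact measurable_const
  · exact measurable_const

lemma s_abs (x : ℝ) : |s x| ≤ 1 := by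
  unfold s; split_ifs <;> norm_num

lemma s_per : Function.Periodic s 1 := by
  intro x
  unfold s
  have : 2 * Real.pi * (x + 1) = 2 * Real.pi * x + 2 * Real.pi := by ring
  rw [this, Real.cos_add_two_pi]

lemma s_pos1 {x : ℝ} (h0 : 0 ≤ x) (h1 : x ≤ 1/4) : s x = 1 := by
  have hp := Real.pi_pos
  unfold s
  rw [if_pos]
  apply Real.cos_nonneg_of_neg_pi_div_two_le_of_le <;> nlinarith

lemma s_neg {x : ℝ} (h0 : 1/4 < x) (h1 : x < 3/4) : s x = -1 := by
  have hp := Real.pi_pos
  unfold s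
  rw [if_neg]
  push Not
  apply Real.cos_neg_of_pi_div_two_lt_of_lt <;> nlinarith

lemma s_pos2 {x : ℝ} (h0 : 3/4 ≤ x) (h1 : x ≤ 1) : s x = 1 := by
  have := s_per (x - 1)
  rw [sub_add_cancel] at this
  rw [this]
  have hp := Real.pi_pos
  unfold s
  rw [if_pos]
  apply Real.cos_nonneg_of_neg_pi_div_two_le_of_le <;> nlinarith

lemma split (g : ℝ → ℂ) (hg : Continuous g) : ∫ x in (0:ℝ)..1, (s x : ℂ) * g x =
    (∫ x in (0:ℝ)..(1/4), g x) - (∫ x in (1/4:ℝ)..(3/4), g x) + ∫ x in (3/4:ℝ)..1, g x := by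
  have hsm : MemLp (fun x => (s x : ℂ)) ⊤ (volume.restrict (Set.Ioc (0:ℝ) 1)) := by
    refine memLp_top_of_bound (Complex.measurable_ofReal.comp s_meas).aestronglyMeasurable 1
      (Filter.Eventually.of_forall ?_)
    intro x
    rw [Complex.norm_real]; exact s_abs _
  have hi : IntervalIntegrable (fun x => (s x : ℂ) * g x) volume 0 1 :=
    (DTWO.memLp_intervalIntegrable hsm).mul_continuousOn hg.continuousOn
  have hi1 : IntervalIntegrable (fun x => (s x : ℂ) * g x) volume 0 (1/4) :=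
    hi.mono_set (by rw [Set.uIcc_of_le (by norm_num), Set.uIcc_of_le (by norm_num)]; exact Set.Icc_subset_Icc (by norm_num) (by norm_num))
  have hi2 : IntervalIntegrable (fun x => (s x : ℂ) * g x) volume (1/4) (3/4) :=
    hi.mono_set (by rw [Set.uIcc_of_le (by norm_num), Set.uIcc_of_le (by norm_num)]; exact Set.Icc_subset_Icc (by norm_num) (by norm_num))
  have hi3 : IntervalIntegrable (fun x => (s x : ℂ) * g x) volume (3/4) 1 :=
    hi.mono_set (by rw [Set.uIcc_of_le (by norm_num), Set.uIcc_of_le (by norm_num)]; exact Set.Icc_subset_Icc (by norm_num) (by norm_num))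
  rw [← intervalIntegral.integral_add_adjacent_intervals hi1 (hi2.trans hi3),
    ← intervalIntegral.integral_add_adjacent_intervals hi2 hi3]
  have e1 : ∫ x in (0:ℝ)..(1/4), (s x : ℂ) * g x = ∫ x in (0:ℝ)..(1/4), g x := by
    apply intervalIntegral.integral_congr
    intro x hx
    rw [Set.uIcc_of_le (by norm_num)] at hx
    simp only
    rw [s_pos1 hx.1 hx.2]; simp
  have e3 : ∫ x in (3/4:ℝ)..1, (s x : ℂ) * g x = ∫ x in (3/4:ℝ)..1, g x := by
    apply intervalIntegral.integral_congr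
    intro x hx
    rw [Set.uIcc_of_le (by norm_num)] at hx
    simp only
    rw [s_pos2 hx.1 hx.2]; simp
  have e2 : ∫ x in (1/4:ℝ)..(3/4), (s x : ℂ) * g x = - ∫ x in (1/4:ℝ)..(3/4), g x := by
    rw [← intervalIntegral.integral_neg, intervalIntegral.integral_of_le (by norm_num),
      intervalIntegral.integral_of_le (by norm_num), integral_Ioc_eq_integral_Ioo,
      integral_Ioc_eq_integral_Ioo]
    apply setIntegral_congr_fun measurableSet_Ioo
    intro x hx
    simp only
    rw [s_neg hx.1 hx.2]; simp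
  rw [e1, e2, e3]; ring

lemma coef_eq (n : ℤ) (hn : n ≠ 0) : coef (fun x => (s x : ℂ)) n =
    (Complex.exp ((-(2 * Real.pi * n) * Complex.I : ℂ) * ((1/4:ℝ):ℂ)) -
     Complex.exp ((-(2 * Real.pi * n) * Complex.I : ℂ) * ((3/4:ℝ):ℂ))) * 2 /
      (-(2 * Real.pi * n) * Complex.I) := by
  have hc : (-(2 * Real.pi * n) * Complex.I : ℂ) ≠ 0 := by
    have : (Real.pi : ℂ) ≠ 0 := by exact_mod_cast Real.pi_pos.ne'
    have hn : (n : ℂ) ≠ 0 := by exact_mod_cast hn
    simp [this, hn]
  unfold coef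
  have e : ∀ x : ℝ, Complex.exp (-(2 * Real.pi * n * x) * Complex.I) =
      Complex.exp ((-(2 * Real.pi * n) * Complex.I : ℂ) * x) := by
    intro x; congr 1; ring
  simp_rw [e]
  rw [split _ (by fun_prop), integral_exp_mul_complex hc, integral_exp_mul_complex hc,
    integral_exp_mul_complex hc]
  have e1 : (-(2 * Real.pi * n) * Complex.I : ℂ) * ((1:ℝ):ℂ) =
    2 * Real.pi * ((-n : ℤ) : ℂ) * Complex.I := by push_cast; ring
  rw [e1, CONE1.exp_int]
  simp only [Complex.ofReal_zero, mul_zero, Complex.exp_zero]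
  ring

theorem sgn : CONE1.SGN := by
  have hpc : (Real.pi : ℂ) ≠ 0 := by exact_mod_cast Real.pi_pos.ne'
  have q1 : Complex.exp (-(Real.pi / 2 * Complex.I)) = -Complex.I := by
    rw [Complex.exp_neg, Complex.exp_pi_div_two_mul_I, Complex.inv_I]
  refine ⟨s, s_meas, s_abs, s_per, ?_, ?_, ?_⟩
  · have : coef (fun x => (s x : ℂ)) 0 = ∫ x in (0:ℝ)..1, (s x : ℂ) * (fun _ => (1:ℂ)) x := by
      unfold coef
      apply intervalIntegral.integral_congr
      intro x _
      simp
    rw [this, split _ continuous_const]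
    simp
    norm_num
  · rw [coef_eq 1 (by norm_num)]
    have a1 : (-(2 * Real.pi * ((1:ℤ):ℂ)) * Complex.I : ℂ) * ((1/4:ℝ):ℂ) = -(Real.pi / 2 * Complex.I) := by
      push_cast; ring
    have a2 : (-(2 * Real.pi * ((1:ℤ):ℂ)) * Complex.I : ℂ) * ((3/4:ℝ):ℂ) =
        (Real.pi / 2 * Complex.I) + (2 * Real.pi * ((-1:ℤ):ℂ) * Complex.I) := by
      push_cast; ring
    rw [a1, a2, Complex.exp_add, CONE1.exp_int, q1, Complex.exp_pi_div_two_mul_I]
    push_cast
    field_simp
    ring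
  · rw [coef_eq (-1) (by norm_num)]
    have a1 : (-(2 * Real.pi * ((-1:ℤ):ℂ)) * Complex.I : ℂ) * ((1/4:ℝ):ℂ) = (Real.pi / 2 * Complex.I) := by
      push_cast; ring
    have a2 : (-(2 * Real.pi * ((-1:ℤ):ℂ)) * Complex.I : ℂ) * ((3/4:ℝ):ℂ) =
        -(Real.pi / 2 * Complex.I) + (2 * Real.pi * ((1:ℤ):ℂ) * Complex.I) := by
      push_cast; ring
    rw [a1, a2, Complex.exp_add, CONE1.exp_int, q1, Complex.exp_pi_div_two_mul_I]
    push_cast
    field_simp
    ring

end SGN60
end Pool.Agent.K6.H60.TZ
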